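import Pool.Agent.NH97.ERW.Envt

set_option autoImplicit false

/-!
The Markov chain `z ↦ U(z)`.
-/

namespace Pool.Agent.NH97.ERW

open MeasureTheory ProbabilityTheory Filter Topology

/-- the law of a sequence of independent stacks -/
noncomputable def stkM (p : Env) : Measure (ℕ → ℕ → Bool) :=
  Measure.infinitePi (fun _ : ℕ => trials p)

instance (p : Env) : IsProbabilityMeasure (stkM p) := by unfold stkM; infer_instance

/-- the chain -/
noncomputable def zz (k : ℕ) (β : ℕ → ℕ → Bool) : ℕ → ℕ
  | 0 => k
  | (n + 1) => U (zz k β n) (β n)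

lemma zz_zero (k : ℕ) (β : ℕ → ℕ → Bool) : zz k β 0 = k := rfl
lemma zz_succ (k : ℕ) (β : ℕ → ℕ → Bool) (n : ℕ) : zz k β (n + 1) = U (zz k β n) (β n) := rfl

lemma U_zero (b : ℕ → Bool) : U 0 b = 0 := by
  have : {i : ℕ | b i = true ∧ Nat.count (fun j => b j = false) i < 0} = ∅ := by
    ext i; simp
  rw [U, this, Set.ncard_empty]

lemma zz_zero_mono {k : ℕ} {β : ℕ → ℕ → Bool} {n m : ℕ} (h : n ≤ m) (hz : zz k β n = 0) :
    zz k β m = 0 := by
  induction m, h using Nat.le_induction with
  | base => exact hz
  | succ m _ ih => rw [zz_succ, ih, U_zero]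

lemma measurable_U2 : Measurable (fun q : ℕ × (ℕ → Bool) => U q.1 q.2) :=
  measurable_from_prod_countable_right fun n => measurable_U n

lemma measurable_zz (k n : ℕ) : Measurable (fun β => zz k β n) := by
  induction n with
  | zero => exact measurable_const
  | succ n ih => exact measurable_U2.comp (ih.prodMk (measurable_pi_apply n))

lemma zz_congr (k n : ℕ) {β β' : ℕ → ℕ → Bool} (h : ∀ i < n, β i = β' i) :
    zz k β n = zz k β' n := by
  induction n with
  | zero => rfl
  | succ n ih =>
    rw [zz_succ, zz_succ, ih fun i hi => h i (by omega), h n (by omega)]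

lemma zz_indep (p : Env) (k n : ℕ) :
    IndepFun (fun β => zz k β n) (fun β : ℕ → ℕ → Bool => β n) (stkM p) := by
  have h0 : iIndepFun (fun (i : ℕ) (β : ℕ → ℕ → Bool) => β i) (stkM p) :=
    iIndepFun_infinitePi (X := fun _ x => x) (fun _ => measurable_id)
  have h1 := h0.indepFun_finset (Finset.range n) {n} (by simp) (fun i => measurable_pi_apply i)
  set ext : (Finset.range n → ℕ → Bool) → (ℕ → ℕ → Bool) :=
    fun a i => if h : i ∈ Finset.range n then a ⟨i, h⟩ else fun _ => false with hext
  have hme : Measurable ext := by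
    refine measurable_pi_lambda _ fun i => ?_
    by_cases h : i ∈ Finset.range n
    · simp only [hext, h, dif_pos]
      exact measurable_pi_apply _
    · simp only [hext, h, dif_neg, not_false_iff]
      exact measurable_const
  have hψ : Measurable (fun a : (({n} : Finset ℕ) → ℕ → Bool) =>
      a ⟨n, Finset.mem_singleton_self n⟩) := measurable_pi_apply _
  have h2 := h1.comp ((measurable_zz k n).comp hme) hψ
  have e1 : ((fun β => zz k β n) ∘ ext) ∘ (fun (β : ℕ → ℕ → Bool) (i : Finset.range n) => β i) =
      fun β => zz k β n := by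
    funext β
    refine zz_congr k n fun i hi => ?_
    simp [hext, hi]
  rw [e1] at h2
  exact h2

lemma chain_step (p : Env) (k n : ℕ) (F : ℕ → (ℕ → Bool) → ENNReal) (hF : ∀ z, Measurable (F z)) :
    ∫⁻ β, F (zz k β n) (β n) ∂(stkM p) =
      ∫⁻ β, (∫⁻ b, F (zz k β n) b ∂(trials p)) ∂(stkM p) := by
  have hF2 : Measurable (fun q : ℕ × (ℕ → Bool) => F q.1 q.2) :=
    measurable_from_prod_countable_right hF
  have h1 := (indepFun_iff_map_prod_eq_prod_map_map (measurable_zz k n).aemeasurable
    (measurable_pi_apply n).aemeasurable).1 (zz_indep p k n)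
  have h2 : (stkM p).map (fun β : ℕ → ℕ → Bool => β n) = trials p :=
    Measure.infinitePi_map_eval (fun _ : ℕ => trials p) n
  rw [h2] at h1
  have h3 : ∫⁻ β, F (zz k β n) (β n) ∂(stkM p) =
      ∫⁻ q, F q.1 q.2 ∂((stkM p).map (fun β => (zz k β n, β n))) := by
    rw [lintegral_map hF2 ((measurable_zz k n).prodMk (measurable_pi_apply n))]
  rw [h3, h1, lintegral_prod _ hF2.aemeasurable, lintegral_map _ (measurable_zz k n)]
  exact hF2.lintegral_prod_right'

/-- a chain with an excessive function -/
theorem chain_q (p : Env) (q : ℕ → ℝ) (h0 : ∀ n, 0 ≤ q n) (h1 : ∀ n, q n ≤ 1) (hq0 : q 0 = 1)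
    (hq : ∀ x, ∫ b, q (U x b) ∂(trials p) ≤ q x) (k : ℕ) :
    stkM p {β | ∃ n, zz k β n = 0} ≤ ENNReal.ofReal (q k) := by
  have hF : ∀ z, Measurable (fun b => ENNReal.ofReal (q (U z b))) := fun z =>
    (measurable_of_countable (fun m => ENNReal.ofReal (q m))).comp (measurable_U z)
  have hqe : ∀ z, ∫⁻ b, ENNReal.ofReal (q (U z b)) ∂(trials p) ≤ ENNReal.ofReal (q z) := by
    intro z
    rw [← ofReal_integral_eq_lintegral_ofReal _ (Eventually.of_forall fun b => h0 _)]
    · exact ENNReal.ofReal_le_ofReal (hq z)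
    · exact int_of_bdd q 1 (fun n => by rw [abs_of_nonneg (h0 n)]; exact h1 n) z
  have hE : ∀ n, ∫⁻ β, ENNReal.ofReal (q (zz k β n)) ∂(stkM p) ≤ ENNReal.ofReal (q k) := by
    intro n
    induction n with
    | zero => simp [zz_zero]
    | succ n ih =>
      refine le_trans ?_ ih
      simp only [zz_succ]
      rw [chain_step p k n (fun z b => ENNReal.ofReal (q (U z b))) hF]
      exact lintegral_mono fun β => hqe _
  have hP : ∀ n, stkM p {β | zz k β n = 0} ≤ ENNReal.ofReal (q k) := by
    intro n
    refine le_trans ?_ (hE n)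
    have hm : MeasurableSet {β | zz k β n = 0} := (measurable_zz k n) (measurableSet_singleton 0)
    rw [← lintegral_indicator_one hm]
    refine lintegral_mono fun β => ?_
    by_cases hz : zz k β n = 0
    · rw [Set.indicator_of_mem (by exact hz), hz, hq0]
      simp
    · rw [Set.indicator_of_notMem (by exact hz)]
      exact bot_le
  have hU : {β | ∃ n, zz k β n = 0} = ⋃ n, {β | zz k β n = 0} := by
    ext β; simp
  have hmono : Monotone (fun n => {β | zz k β n = 0}) := fun n m h β hz => zz_zero_mono h hz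
  rw [hU, hmono.measure_iUnion]
  exact iSup_le hP

/-- a supermartingale chain dies out -/
theorem chain_die (p : Env) {ε : ℝ} (hε : 0 < ε) (hp : ∀ i, (p i : ℝ) ≤ 1 - ε)
    (hmean : ∀ x : ℕ, ∫⁻ b, (U x b : ENNReal) ∂(trials p) ≤ x) (k : ℕ) :
    stkM p {β | ∀ n, 1 ≤ zz k β n} = 0 := by
  have hε1 : ε ≤ 1 := by
    have := hp 0
    have := (p 0).2.1
    linarith
  have hE : ∀ n, ∫⁻ β, (zz k β n : ENNReal) ∂(stkM p) ≤ k := by
    intro n
    induction n with
    | zero => simp [zz_zero]
    | succ n ih =>
      refine le_trans ?_ ih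
      simp only [zz_succ]
      rw [chain_step p k n (fun z b => (U z b : ENNReal)) fun z =>
        (measurable_of_countable (fun m : ℕ => (m : ENNReal))).comp (measurable_U z)]
      exact lintegral_mono fun β => hmean _
  set a : ℕ → ENNReal := fun n => stkM p {β | zz k β n = 0} with ha
  have hma : ∀ n, MeasurableSet {β | zz k β n = 0} := fun n =>
    (measurable_zz k n) (measurableSet_singleton 0)
  have hmono : Monotone (fun n => {β | zz k β n = 0}) := fun n m h β hz => zz_zero_mono h hz
  -- probability of immediate death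
  have hdie : ∀ M z : ℕ, z ≤ M → ENNReal.ofReal ε ^ M ≤ trials p {b | U z b = 0} := by
    intro M z hz
    have h1 : Set.pi ((Finset.range M : Finset ℕ) : Set ℕ) (fun _ => ({false} : Set Bool)) ⊆
        {b | U z b = 0} := by
      intro b hb
      have hb' : ∀ i < M, b i = false := fun i hi => by
        have := hb i (by simpa using hi)
        simpa using this
      have hFl : ∀ i ≤ M, Fl b i = i := by
        intro i
        induction i with
        | zero => intro _; simp [Fl]
        | succ i ih =>
          intro hi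
          rw [Fl_succ, ih (by omega), if_pos (hb' i (by omega))]
      by_contra hc
      have hk : 1 ≤ U z b := Nat.one_le_iff_ne_zero.2 hc
      obtain ⟨h2, h3⟩ := (U_eq_iff hk).1 rfl
      rcases Nat.lt_or_ge z (z + U z b - 1) with h | h
      · have h4 := Fl_mono b h.le
        rw [hFl z hz] at h4
        omega
      · have e : z + U z b - 1 = z := by omega
        rw [e, hFl z hz] at h2
        omega
    refine le_trans ?_ (measure_mono h1)
    rw [trials, Measure.infinitePi_pi _ (fun i _ => MeasurableSet.of_discrete)]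
    calc ENNReal.ofReal ε ^ M = ∏ _i ∈ Finset.range M, ENNReal.ofReal ε := by
          rw [Finset.prod_const, Finset.card_range]
      _ ≤ _ := by
          refine Finset.prod_le_prod' fun i _ => ?_
          rw [coin_false]
          exact ENNReal.ofReal_le_ofReal (by linarith [hp i])
  -- increment
  have hinc : ∀ M n : ℕ, a n + ENNReal.ofReal ε ^ M * stkM p {β | 1 ≤ zz k β n ∧ zz k β n ≤ M} ≤
      a (n + 1) := by
    intro M n
    have hF : ∀ z, Measurable (fun b => Set.indicator {b : ℕ → Bool | U z b = 0} (1 : (ℕ → Bool) → ENNReal) b) :=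
      fun z => measurable_one.indicator ((measurable_U z) (measurableSet_singleton 0))
    have h1 : a (n + 1) = ∫⁻ β, trials p {b | U (zz k β n) b = 0} ∂(stkM p) := by
      have h2 : a (n + 1) = ∫⁻ β, Set.indicator {b : ℕ → Bool | U (zz k β n) b = 0} 1 (β n)
          ∂(stkM p) := by
        rw [ha]
        simp only
        rw [← lintegral_indicator_one (hma (n + 1))]
        refine lintegral_congr fun β => ?_
        by_cases hz : zz k β (n + 1) = 0
        · rw [Set.indicator_of_mem (by exact hz), Set.indicator_of_mem (by exact hz)]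
          rfl
        · rw [Set.indicator_of_notMem (by exact hz), Set.indicator_of_notMem (by exact hz)]
      rw [h2, chain_step p k n (fun z b => Set.indicator {b : ℕ → Bool | U z b = 0} 1 b) hF]
      refine lintegral_congr fun β => ?_
      exact lintegral_indicator_one ((measurable_U _) (measurableSet_singleton 0))
    have hm2 : MeasurableSet {β | 1 ≤ zz k β n ∧ zz k β n ≤ M} :=
      (measurable_zz k n) (measurableSet_Icc (a := 1) (b := M))
    rw [h1, ha]
    simp only
    rw [← lintegral_indicator_one (hma n), ← lintegral_indicator_one hm2, ← lintegral_const_mul _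
      (measurable_one.indicator hm2), ← lintegral_add_left (measurable_one.indicator (hma n))]
    refine lintegral_mono fun β => ?_
    rcases Nat.eq_zero_or_pos (zz k β n) with hz | hz
    · rw [Set.indicator_of_mem (by exact hz), Set.indicator_of_notMem (by
        intro h; have := h.1; omega)]
      have : {b : ℕ → Bool | U (zz k β n) b = 0} = Set.univ := by
        ext b; simp [hz, U_zero]
      simp [this]
    · rw [Set.indicator_of_notMem (show β ∉ {β | zz k β n = 0} by
        intro h
        have : zz k β n = 0 := h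
        omega)]
      by_cases hzM : zz k β n ≤ M
      · rw [Set.indicator_of_mem (show β ∈ {β | 1 ≤ zz k β n ∧ zz k β n ≤ M} from ⟨hz, hzM⟩)]
        simpa using hdie M _ hzM
      · rw [Set.indicator_of_notMem (show β ∉ {β | 1 ≤ zz k β n ∧ zz k β n ≤ M} from
          fun h => hzM h.2)]
        simp
  -- Markov
  have hmark : ∀ M n : ℕ, stkM p {β | M < zz k β n} ≤ k / ((M : ENNReal) + 1) := by
    intro M n
    have h1 : {β | M < zz k β n} = {β | ((M : ENNReal) + 1) ≤ (zz k β n : ENNReal)} := by
      ext β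
      simp only [Set.mem_ofPred_eq]
      constructor
      · intro h; exact_mod_cast h
      · intro h; exact_mod_cast h
    rw [h1]
    refine (meas_ge_le_lintegral_div ?_ ?_ ?_).trans (ENNReal.div_le_div_right (hE n) _)
    · exact ((measurable_of_countable (fun m : ℕ => (m : ENNReal))).comp
        (measurable_zz k n)).aemeasurable
    · simp
    · exact ENNReal.add_ne_top.2 ⟨ENNReal.natCast_ne_top M, ENNReal.one_ne_top⟩
  -- reals
  set ar : ℕ → ℝ := fun n => (a n).toReal with har
  have hafin : ∀ n, a n ≠ ⊤ := fun n => measure_ne_top _ _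
  have hle1 : ∀ n, ar n ≤ 1 := fun n => by
    have : a n ≤ 1 := prob_le_one
    exact ENNReal.toReal_le_of_le_ofReal zero_le_one (by simpa using this)
  have hmonor : Monotone ar := fun n m h =>
    (ENNReal.toReal_le_toReal (hafin n) (hafin m)).2 (measure_mono (hmono h))
  have hstep : ∀ M n : ℕ, ar n + ε ^ M * (1 - ar n - k / ((M : ℝ) + 1)) ≤ ar (n + 1) := by
    intro M n
    have h1 := hinc M n
    have h2 := (ENNReal.toReal_le_toReal (by
      exact ne_top_of_le_ne_top (hafin (n + 1)) h1) (hafin (n + 1))).2 h1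
    rw [ENNReal.toReal_add (hafin n) (by
      exact ENNReal.mul_ne_top (ENNReal.pow_ne_top ENNReal.ofReal_ne_top) (measure_ne_top _ _)),
      ENNReal.toReal_mul, ENNReal.toReal_pow, ENNReal.toReal_ofReal hε.le] at h2
    refine le_trans ?_ h2
    have h3 : (1 : ENNReal) ≤ a n + stkM p {β | 1 ≤ zz k β n ∧ zz k β n ≤ M} +
        stkM p {β | M < zz k β n} := by
      rw [← measure_univ (μ := stkM p)]
      have hcov : (Set.univ : Set (ℕ → ℕ → Bool)) ⊆ ({β | zz k β n = 0} ∪
          {β | 1 ≤ zz k β n ∧ zz k β n ≤ M}) ∪ {β | M < zz k β n} := by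
        intro β _
        simp only [Set.mem_union, Set.mem_ofPred_eq]
        omega
      exact (measure_mono hcov).trans ((measure_union_le _ _).trans
        (add_le_add (measure_union_le _ _) le_rfl))
    have h4 : (1 : ℝ) ≤ ar n + (stkM p {β | 1 ≤ zz k β n ∧ zz k β n ≤ M}).toReal +
        k / ((M : ℝ) + 1) := by
      have h5 := h3.trans (add_le_add le_rfl (hmark M n))
      have h6 : (k : ENNReal) / ((M : ENNReal) + 1) ≠ ⊤ :=
        ENNReal.div_ne_top (ENNReal.natCast_ne_top k) (by simp)
      have h7 := (ENNReal.toReal_le_toReal ENNReal.one_ne_top (by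
        exact ENNReal.add_ne_top.2 ⟨ENNReal.add_ne_top.2 ⟨hafin n, measure_ne_top _ _⟩, h6⟩)).2 h5
      rw [ENNReal.toReal_one, ENNReal.toReal_add (ENNReal.add_ne_top.2 ⟨hafin n, measure_ne_top _ _⟩)
        h6, ENNReal.toReal_add (hafin n) (measure_ne_top _ _), ENNReal.toReal_div,
        ENNReal.toReal_natCast, ENNReal.toReal_add (ENNReal.natCast_ne_top M) ENNReal.one_ne_top,
        ENNReal.toReal_natCast, ENNReal.toReal_one] at h7
      exact h7
    have h8 : (0 : ℝ) ≤ ε ^ M := by positivity
    have h9 := mul_le_mul_of_nonneg_left (show 1 - ar n - k / ((M : ℝ) + 1) ≤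
      (stkM p {β | 1 ≤ zz k β n ∧ zz k β n ≤ M}).toReal by linarith) h8
    linarith
  have hlim : Tendsto ar atTop (𝓝 (⨆ n, ar n)) :=
    tendsto_atTop_ciSup hmonor ⟨1, by rintro _ ⟨n, rfl⟩; exact hle1 n⟩
  set L := ⨆ n, ar n with hL
  have hLM : ∀ M : ℕ, 1 - L ≤ k / ((M : ℝ) + 1) := by
    intro M
    have h1 : Tendsto (fun n => ar n + ε ^ M * (1 - ar n - k / ((M : ℝ) + 1))) atTop
        (𝓝 (L + ε ^ M * (1 - L - k / ((M : ℝ) + 1)))) :=
      hlim.add (((hlim.const_sub 1).sub_const _).const_mul _)
    have h2 := le_of_tendsto_of_tendsto' h1 (hlim.comp (tendsto_add_atTop_nat 1)) (hstep M)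
    have h3 : (0 : ℝ) < ε ^ M := by positivity
    by_contra hc
    push Not at hc
    have := mul_pos h3 (show 0 < 1 - L - k / ((M : ℝ) + 1) by linarith)
    linarith
  have hL1 : 1 ≤ L := by
    have h1 : Tendsto (fun M : ℕ => (k : ℝ) / ((M : ℝ) + 1)) atTop (𝓝 0) :=
      tendsto_const_div_atTop_nhds_zero_nat (k : ℝ) |>.comp (tendsto_add_atTop_nat 1) |>.congr
        (fun M => by simp)
    have := ge_of_tendsto' h1 hLM
    linarith
  -- conclusion
  have hfin : ∀ n, (stkM p {β | ∀ n, 1 ≤ zz k β n}) ≤ ENNReal.ofReal (1 - ar n) := by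
    intro n
    have h1 : {β | ∀ n, 1 ≤ zz k β n} ⊆ {β | zz k β n = 0}ᶜ := by
      intro β hβ
      have := hβ n
      simp only [Set.mem_compl_iff, Set.mem_ofPred_eq]
      omega
    refine (measure_mono h1).trans ?_
    rw [prob_compl_eq_one_sub (hma n), ENNReal.ofReal_sub _ ENNReal.toReal_nonneg,
      ENNReal.ofReal_one, ENNReal.ofReal_toReal (hafin n)]
  have hfin2 : Tendsto (fun n => ENNReal.ofReal (1 - ar n)) atTop (𝓝 (ENNReal.ofReal (1 - L))) :=
    ENNReal.tendsto_ofReal (hlim.const_sub 1)
  have h0 : ENNReal.ofReal (1 - L) = 0 := ENNReal.ofReal_eq_zero.2 (by linarith)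
  rw [h0] at hfin2
  exact le_antisymm (ge_of_tendsto' hfin2 hfin) bot_le

end Pool.Agent.NH97.ERW
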