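import Mathlib

set_option autoImplicit false

/-!
Excited random walks in identically piled environments: definitions.
-/

namespace Pool.Agent.NH97.ERW

open MeasureTheory ProbabilityTheory Filter Topology

/-- An identically piled cookie environment.  `p i` is the strength of the `(i+1)`-st cookie of
every site (in the notation of the problem, `p_{i+1}`). -/
abbrev Env : Type := ℕ → unitInterval

/-- uniform ellipticity -/
def UniformlyElliptic (p : Env) : Prop :=
  ∃ ε : ℝ, 0 < ε ∧ ∀ i, ε ≤ (p i : ℝ) ∧ (p i : ℝ) ≤ 1 - ε

/-- the law of one Bernoulli trial with success probability `c` -/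
noncomputable def coin (c : unitInterval) : Measure Bool :=
  ENNReal.ofReal c • Measure.dirac true + ENNReal.ofReal (1 - c) • Measure.dirac false

instance (c : unitInterval) : IsProbabilityMeasure (coin c) := by
  constructor
  rw [coin, Measure.add_apply, Measure.smul_apply, Measure.smul_apply]
  simp only [measure_univ, smul_eq_mul, mul_one]
  rw [← ENNReal.ofReal_add c.2.1 (by linarith [c.2.2])]
  simp

/-- the law of independent Bernoulli trials `b 0, b 1, …` with `P(b i = true) = p i` -/
noncomputable def trials (p : Env) : Measure (ℕ → Bool) := Measure.infinitePi (fun i => coin (p i))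

instance (p : Env) : IsProbabilityMeasure (trials p) := by
  unfold trials; infer_instance

/-- the number of successes (`true`) before the `x`-th failure (`false`) of the trials `b`:
the number of indices `i` with `b i = true` and fewer than `x` failures before `i` -/
noncomputable def U (x : ℕ) (b : ℕ → Bool) : ℕ :=
  Set.ncard {i : ℕ | b i = true ∧ Nat.count (fun j => b j = false) i < x}

/-- the mean of `U(x)` -/
noncomputable def meanU (p : Env) (x : ℕ) : ℝ := ∫ b, (U x b : ℝ) ∂(trials p)

/-- `ρ(x) = E[U(x) - μ x]` -/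
noncomputable def rho (p : Env) (μ : ℝ) (x : ℕ) : ℝ := ∫ b, ((U x b : ℝ) - μ * x) ∂(trials p)

/-- `ν(x) = E[(U(x) - μ x)²] / x` -/
noncomputable def nu (p : Env) (μ : ℝ) (x : ℕ) : ℝ :=
  (∫ b, ((U x b : ℝ) - μ * x) ^ 2 ∂(trials p)) / x

/-- `θ(x) = 2 ρ(x) / ν(x)` -/
noncomputable def theta (p : Env) (μ : ℝ) (x : ℕ) : ℝ := 2 * rho p μ x / nu p μ x

/-- for a path `x`: the number of visits to the site `x n` before time `n`
(`L_n(x_n) - 1` in the notation of the problem) -/
def earlier (x : ℕ → ℤ) (n : ℕ) : ℕ := ((Finset.range n).filter (fun k => x k = x n)).card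

/-- `X` is an excited random walk on `ℤ` in the identically piled environment `p`, started at `0`:
given `X 0, …, X n`, the walk steps to the right with probability `p j` and to the left with
probability `1 - p j`, where `j` is the number of earlier visits to `X n`. -/
structure IsERW (p : Env) {Ω : Type} [MeasurableSpace Ω] (P : Measure Ω) (X : ℕ → Ω → ℤ) :
    Prop where
  measurable : ∀ n, Measurable (X n)
  start : ∀ᵐ ω ∂P, X 0 ω = 0
  right : ∀ (n : ℕ) (x : ℕ → ℤ),
    P {ω | (∀ k ≤ n, X k ω = x k) ∧ X (n + 1) ω = x n + 1} =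
      ENNReal.ofReal (p (earlier x n)) * P {ω | ∀ k ≤ n, X k ω = x k}
  left : ∀ (n : ℕ) (x : ℕ → ℤ),
    P {ω | (∀ k ≤ n, X k ω = x k) ∧ X (n + 1) ω = x n - 1} =
      ENNReal.ofReal (1 - p (earlier x n)) * P {ω | ∀ k ≤ n, X k ω = x k}

end Pool.Agent.NH97.ERW
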