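import Pool.Agent.NH97.ERW.Lyap3

set_option autoImplicit false

/-!
The cookie environment.
-/

namespace Pool.Agent.NH97.ERW

open MeasureTheory ProbabilityTheory Filter Topology

/-- the constant of the environment -/
noncomputable def CC : ℝ := 20000000

/-- accumulated drift -/
noncomputable def δ (n : ℕ) : ℝ := min ((n : ℝ) / 2) (1 + gc CC n)

lemma CC_pos : 0 < CC := by unfold CC; norm_num

lemma gc_step (n : ℕ) : gc CC n - gc CC (n + 1) ≤ 1 / 2 := by
  have h1 := Nat.log_mono_right (b := 2) (Nat.le_succ n)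
  have h2 : Nat.log 2 (n + 1) ≤ Nat.log 2 n + 1 := by
    rcases Nat.eq_zero_or_pos n with rfl | hn
    · simp
    · have h3 : n < 2 ^ (Nat.log 2 n + 1) := Nat.lt_pow_succ_log_self (by norm_num) n
      refine Nat.lt_succ_iff.1 (Nat.log_lt_of_lt_pow (by omega) ?_)
      rw [pow_succ]
      omega
  have h3 : (Nat.log 2 (n + 1) : ℝ) ≤ Nat.log 2 n + 1 := by exact_mod_cast h2
  have h0 : (0 : ℝ) ≤ Nat.log 2 n := Nat.cast_nonneg _
  have h0' : (0 : ℝ) ≤ Nat.log 2 (n + 1) := Nat.cast_nonneg _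
  unfold gc
  have hC := CC_pos
  have hC2 : CC = 20000000 := rfl
  rw [div_sub_div _ _ (by linarith) (by linarith), div_le_div_iff₀ (by positivity) (by norm_num)]
  have h4 : CC * (Nat.log 2 (n + 1) + CC) - (Nat.log 2 n + CC) * CC ≤ CC := by nlinarith
  have h5 : CC * CC ≤ (Nat.log 2 n + CC) * (Nat.log 2 (n + 1) + CC) := by
    refine mul_le_mul ?_ ?_ hC.le (by linarith) <;> linarith
  nlinarith

lemma δ_step (n : ℕ) : |δ (n + 1) - δ n| ≤ 1 / 2 := by
  have h1 : gc CC (n + 1) ≤ gc CC n := gc_anti CC_pos (Nat.le_succ n)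
  have h2 := gc_step n
  have h3 : |δ (n + 1) - δ n| ≤ max |((n + 1 : ℕ) : ℝ) / 2 - (n : ℝ) / 2|
      |(1 + gc CC (n + 1)) - (1 + gc CC n)| := abs_min_sub_min_le_max _ _ _ _
  refine h3.trans (max_le ?_ ?_)
  · push_cast
    rw [abs_of_nonneg] <;> linarith
  · rw [abs_le]
    constructor <;> linarith

/-- the environment -/
noncomputable def pC : Env := fun n =>
  ⟨(1 + (δ (n + 1) - δ n)) / 2, by
    have := abs_le.1 (δ_step n)
    constructor <;> linarith⟩

lemma pC_val (n : ℕ) : (pC n : ℝ) = (1 + (δ (n + 1) - δ n)) / 2 := rfl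

lemma pC_elliptic : UniformlyElliptic pC := by
  refine ⟨1 / 4, by norm_num, fun i => ?_⟩
  have := abs_le.1 (δ_step i)
  rw [pC_val]
  constructor <;> linarith

lemma δ_zero : δ 0 = 0 := by
  unfold δ
  have := gc_nonneg CC_pos 0
  rw [min_eq_left] <;> simp
  linarith

lemma dr_pC (n : ℕ) : dr pC n = δ (n + 1) - δ n := by
  rw [dr, pC_val]; ring

lemma dl_pC (n : ℕ) : dl pC n = δ n := by
  induction n with
  | zero => simp [dl, δ_zero]
  | succ n ih => rw [dl_succ, ih, dr_pC]; ring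

lemma δ_nonneg (n : ℕ) : 0 ≤ δ n := by
  have := gc_nonneg CC_pos n
  exact le_min (by positivity) (by linarith)

lemma δ_le (n : ℕ) : δ n ≤ 2 := by
  have := gc_le_one CC_pos n
  exact (min_le_right _ _).trans (by linarith)

lemma δ_large {n : ℕ} (hn : 4 ≤ n) : δ n = 1 + gc CC n := by
  have h1 := gc_le_one CC_pos n
  have h2 : (4 : ℝ) ≤ n := by exact_mod_cast hn
  exact min_eq_right (by linarith)

lemma hB_pC (n : ℕ) : |dl pC n| ≤ 2 := by
  rw [dl_pC, abs_of_nonneg (δ_nonneg n)]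
  exact δ_le n

lemma hdl_pC (n : ℕ) (hn : 4 ≤ n) : dl pC n = 1 + gc CC n := by
  rw [dl_pC, δ_large hn]

lemma gc_tendsto : Tendsto (gc CC) atTop (𝓝 0) := by
  have h1 : Tendsto (fun n : ℕ => (Nat.log 2 n : ℝ) + CC) atTop atTop := by
    refine tendsto_atTop_add_const_right _ _ ?_
    refine tendsto_natCast_atTop_atTop.comp ?_
    refine tendsto_atTop.2 fun b => ?_
    filter_upwards [eventually_ge_atTop (2 ^ b)] with n hn
    exact (Nat.le_log_iff_pow_le (by norm_num) (by
      have := Nat.one_le_two_pow (n := b)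
      omega)).2 hn
  exact Tendsto.const_div_atTop h1 CC

lemma dl_tendsto : Tendsto (dl pC) atTop (𝓝 1) := by
  have h := gc_tendsto.const_add 1
  rw [add_zero] at h
  refine h.congr' ?_
  filter_upwards [eventually_ge_atTop 4] with n hn
  rw [hdl_pC n hn]

lemma hQ_pC (N : ℕ) : ∑ i ∈ Finset.range N, dr pC i ^ 2 ≤ 3 := by
  have hsq : ∀ i, dr pC i ^ 2 ≤ 1 / 2 * |dr pC i| := by
    intro i
    have h1 : |dr pC i| ≤ 1 / 2 := by rw [dr_pC]; exact δ_step i
    rw [← sq_abs]
    nlinarith [abs_nonneg (dr pC i)]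
  have hsq4 : ∀ i, dr pC i ^ 2 ≤ 1 / 4 := by
    intro i
    have h1 : |dr pC i| ≤ 1 / 2 := by rw [dr_pC]; exact δ_step i
    have := hsq i
    linarith
  rcases Nat.lt_or_ge N 4 with h | h
  · refine (Finset.sum_le_sum fun i _ => hsq4 i).trans ?_
    rw [Finset.sum_const, Finset.card_range, nsmul_eq_mul]
    have : (N : ℝ) ≤ 4 := by exact_mod_cast h.le
    linarith
  · have h1 : ∑ i ∈ Finset.range N, dr pC i ^ 2 ≤ 3 - δ N := by
      induction N, h using Nat.le_induction with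
      | base =>
        have h2 := Finset.sum_le_sum (s := Finset.range 4) fun i _ => hsq4 i
        rw [Finset.sum_const, Finset.card_range, nsmul_eq_mul] at h2
        have := δ_le 4
        norm_num at h2
        linarith
      | succ N hN ih =>
        rw [Finset.sum_range_succ]
        have h3 := hsq N
        have h4 : δ (N + 1) ≤ δ N := by
          rw [δ_large hN, δ_large (by omega)]
          have := gc_anti CC_pos (Nat.le_succ N)
          linarith
        have h5 : |dr pC N| = δ N - δ (N + 1) := by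
          rw [dr_pC, abs_of_nonpos (by linarith)]
          ring
        rw [h5] at h3
        linarith
    have := δ_nonneg N
    linarith

lemma hg_pC : ∀ᵐ b ∂(trials pC), Good b := by
  obtain ⟨ε, hε, h⟩ := pC_elliptic
  exact ae_good hε fun i => (h i).2

/-- the moment part of the result -/
theorem moments_pC : (∀ x, Integrable (fun b => (U x b : ℝ) ^ 2) (trials pC)) ∧
    Tendsto (fun x : ℕ => meanU pC x / x) atTop (𝓝 1) ∧
    Tendsto (rho pC 1) atTop (𝓝 1) ∧ Tendsto (nu pC 1) atTop (𝓝 2) ∧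
    Tendsto (theta pC 1) atTop (𝓝 1) :=
  ⟨fun x => int_sq hg_pC hB_pC x, tendsto_mu hg_pC hB_pC dl_tendsto,
    tendsto_rho hg_pC hB_pC dl_tendsto, tendsto_nu hg_pC hB_pC 3 hQ_pC,
    tendsto_theta hg_pC hB_pC 3 hQ_pC dl_tendsto⟩

theorem q_pC : ∃ q : ℕ → ℝ, (∀ n, 0 ≤ q n) ∧ (∀ n, q n ≤ 1) ∧ q 0 = 1 ∧ Tendsto q atTop (𝓝 0) ∧
      ∀ x, ∫ b, q (U x b) ∂(trials pC) ≤ q x :=
  exists_q hg_pC CC_pos hB_pC hdl_pC le_rfl

end Pool.Agent.NH97.ERW
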