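import Pool.Agent.NH97.ERW.Walk

set_option autoImplicit false

/-!
The excited random walk: probabilistic part and conclusion.
-/

namespace Pool.Agent.NH97.ERW

open MeasureTheory ProbabilityTheory Filter Topology Pool.H543.ERW

/-- the law of the field of stacks -/
noncomputable abbrev MM (p : Env) : Measure (ℤ → ℕ → Bool) := mu ℤ (trials p)

/-- the environment seen by the flipped stacks -/
noncomputable def fl (p : Env) : Env := fun i => unitInterval.symm (p i)

lemma fl_val (p : Env) (i : ℕ) : (fl p i : ℝ) = 1 - p i := rfl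

lemma measurable_ng : Measurable ng :=
  measurable_pi_lambda _ fun i => (measurable_of_finite _).comp (measurable_pi_apply i)

lemma coin_map (c : unitInterval) : (coin c).map (fun s => !s) = coin (unitInterval.symm c) := by
  have hm : Measurable (fun s : Bool => !s) := measurable_of_finite _
  have h1 : ((unitInterval.symm c : unitInterval) : ℝ) = 1 - c := rfl
  ext s _
  rw [Measure.map_apply hm MeasurableSet.of_discrete]
  simp only [coin, Measure.add_apply, Measure.smul_apply, smul_eq_mul, h1]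
  rw [Measure.dirac_apply' _ MeasurableSet.of_discrete, Measure.dirac_apply' _ MeasurableSet.of_discrete,
    Measure.dirac_apply' _ MeasurableSet.of_discrete, Measure.dirac_apply' _ MeasurableSet.of_discrete]
  have h2 : ∀ t : Bool, Set.indicator ((fun s : Bool => !s) ⁻¹' s) (1 : Bool → ENNReal) t =
      Set.indicator s (1 : Bool → ENNReal) (!t) := fun t => rfl
  rw [h2, h2]
  simp only [Bool.not_true, Bool.not_false, sub_sub_cancel]
  rw [add_comm]

lemma trials_map_ng (p : Env) : (trials p).map ng = trials (fl p) := by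
  have h := Measure.infinitePi_map_pi (μ := fun i => coin (p i)) (f := fun _ (s : Bool) => !s)
    (fun _ => measurable_of_finite _)
  have e : ng = fun (x : ℕ → Bool) i => !(x i) := rfl
  rw [trials, e, h, trials]
  congr 1
  funext i
  exact coin_map (p i)

lemma dl_fl (p : Env) (n : ℕ) : dl (fl p) n = -dl p n := by
  unfold dl
  rw [← Finset.sum_neg_distrib]
  refine Finset.sum_congr rfl fun i _ => ?_
  rw [dr, dr, fl_val]
  ring

lemma MM_eval (p : Env) (y : ℤ) : (MM p).map (fun ξ => ξ y) = trials p :=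
  Measure.infinitePi_map_eval (fun _ : ℤ => trials p) y

lemma ae_stack {p : Env} (P : (ℕ → Bool) → Prop) (hP : ∀ᵐ b ∂(trials p), P b) :
    ∀ᵐ ξ ∂(MM p), ∀ y : ℤ, P (ξ y) := by
  rw [ae_all_iff]
  intro y
  rw [← MM_eval p y] at hP
  exact ae_of_ae_map (measurable_pi_apply y).aemeasurable hP

lemma map_sub {p : Env} {f : ℕ → ℤ} (hf : Function.Injective f) :
    (MM p).map (fun ξ n => ξ (f n)) = stkM p :=
  Measure.map_infinitePi_infinitePi_of_inj (P := fun _ : ℤ => trials p) hf

lemma map_rs (p : Env) : (MM p).map rs = stkM p :=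
  map_sub (f := fun n : ℕ => (n : ℤ) + 1) fun a b h => by simpa using h

lemma measurable_ls0 : Measurable (fun (ξ : ℤ → ℕ → Bool) (n : ℕ) => ξ (-((n : ℤ) + 1))) :=
  measurable_pi_lambda _ fun _ => measurable_pi_apply _

lemma measurable_rs : Measurable rs := measurable_pi_lambda _ fun _ => measurable_pi_apply _

lemma measurable_ngs : Measurable (fun (β : ℕ → ℕ → Bool) (n : ℕ) => ng (β n)) :=
  measurable_pi_lambda _ fun n => measurable_ng.comp (measurable_pi_apply n)

lemma measurable_ls : Measurable ls := measurable_ngs.comp measurable_ls0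

lemma map_ls (p : Env) : (MM p).map ls = stkM (fl p) := by
  have e : ls = (fun (β : ℕ → ℕ → Bool) (n : ℕ) => ng (β n)) ∘
      (fun (ξ : ℤ → ℕ → Bool) (n : ℕ) => ξ (-((n : ℤ) + 1))) := rfl
  rw [e, ← Measure.map_map measurable_ngs measurable_ls0,
    map_sub (f := fun n : ℕ => -((n : ℤ) + 1)) (fun a b h => by simpa using h)]
  have h := Measure.infinitePi_map_pi (μ := fun _ : ℕ => trials p) (f := fun _ => ng)
    (fun _ => measurable_ng)
  rw [stkM, h, stkM]
  congr 1
  funext n
  exact trials_map_ng p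

/-- almost sure transience of the walk driven by the stacks -/
theorem WW_tendsto : ∀ᵐ ξ ∂(MM pC), Tendsto (fun n => WW ξ n) atTop atTop := by
  obtain ⟨ε, hε, hell⟩ := pC_elliptic
  have hgf : ∀ᵐ b ∂(trials (fl pC)), Good b := ae_good hε fun i => by
    rw [fl_val]; linarith [(hell i).1]
  have hg1 : ∀ᵐ ξ ∂(MM pC), ∀ y : ℤ, Good (ξ y) := ae_stack Good hg_pC
  have hg2 : ∀ᵐ ξ ∂(MM pC), ∀ y : ℤ, Good (ng (ξ y)) := by
    refine ae_stack (fun b => Good (ng b)) ?_
    rw [← trials_map_ng] at hgf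
    exact ae_of_ae_map measurable_ng.aemeasurable hgf
  -- right chains
  have hr : ∀ᵐ ξ ∂(MM pC), ¬ ∀ k, ∃ n, zz k (rs ξ) n = 0 := by
    have h1 : ∀ᵐ β ∂(stkM pC), ¬ ∀ k, ∃ n, zz k β n = 0 := by
      obtain ⟨q, h0, h1, hq0, hlim, hq⟩ := q_pC
      rw [ae_iff]
      simp only [not_not]
      have h2 : ∀ k, stkM pC {β | ∀ k, ∃ n, zz k β n = 0} ≤ ENNReal.ofReal (q k) := fun k =>
        (measure_mono (show {β | ∀ k, ∃ n, zz k β n = 0} ⊆ {β | ∃ n, zz k β n = 0} from
          fun β hβ => hβ k)).trans (chain_q pC q h0 h1 hq0 hq k)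
      have h3 : Tendsto (fun k => ENNReal.ofReal (q k)) atTop (𝓝 0) := by
        have := ENNReal.tendsto_ofReal hlim
        simpa using this
      exact le_antisymm (ge_of_tendsto' h3 h2) bot_le
    rw [← map_rs] at h1
    exact ae_of_ae_map measurable_rs.aemeasurable h1
  -- left chains
  have hBf : ∀ n, |dl (fl pC) n| ≤ 2 := fun n => by rw [dl_fl, abs_neg]; exact hB_pC n
  have hl : ∀ᵐ ξ ∂(MM pC), ∀ k, ¬ ∀ n, 1 ≤ zz k (ls ξ) n := by
    rw [ae_all_iff]
    intro k
    have hmean : ∀ x : ℕ, ∫⁻ b, (U x b : ENNReal) ∂(trials (fl pC)) ≤ x := by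
      intro x
      have h1 := mean_U hgf hBf x
      have h2 : ∫ b, dl (fl pC) (x + U x b) ∂(trials (fl pC)) ≤ 0 := by
        refine integral_nonpos fun b => ?_
        simp only [Pi.zero_apply]
        rw [dl_fl, dl_pC]
        linarith [δ_nonneg (x + U x b)]
      have h3 : ∫⁻ b, (U x b : ENNReal) ∂(trials (fl pC)) =
          ENNReal.ofReal (∫ b, (U x b : ℝ) ∂(trials (fl pC))) := by
        rw [ofReal_integral_eq_lintegral_ofReal (int_U hgf hBf x)
          (Eventually.of_forall fun b => Nat.cast_nonneg _)]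
        simp
      rw [h3, h1, ← ENNReal.ofReal_natCast]
      exact ENNReal.ofReal_le_ofReal (by linarith)
    have h1 : ∀ᵐ β ∂(stkM (fl pC)), ¬ ∀ n, 1 ≤ zz k β n := by
      rw [ae_iff]
      simp only [not_not]
      exact chain_die (fl pC) hε (fun i => by rw [fl_val]; linarith [(hell i).1]) hmean k
    rw [← map_ls] at h1
    exact ae_of_ae_map measurable_ls.aemeasurable h1
  filter_upwards [hg1, hg2, hr, hl] with ξ h1 h2 h3 h4
  exact det h1 h2 h3 h4

lemma gg_inj : Function.Injective gg.u := by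
  intro a b h
  have h' : (if a = true then (1 : ℤ) else -1) = if b = true then 1 else -1 := h
  cases a <;> cases b <;> simp_all

lemma coin_singleton (c : unitInterval) (s : Bool) :
    coin c {s} = ENNReal.ofReal (if s = true then (c : ℝ) else 1 - c) := by
  cases s
  · rw [coin_false]; simp
  · rw [coin_true]; simp

lemma Cy_succ_prob (p : Env) (ξ₀ : ℤ → ℕ → Bool) (n : ℕ) :
    MM p (Cy gg ξ₀ (n + 1)) = MM p (Cy gg ξ₀ n) *
      coin (p (CN ξ₀ n (WW ξ₀ n))) {ξ₀ (WW ξ₀ n) (CN ξ₀ n (WW ξ₀ n))} := by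
  classical
  have hpath : ∀ n, MM p (Cy gg ξ₀ n) = ∏ j ∈ Finset.range n,
      coin (p (CN ξ₀ j (WW ξ₀ j))) {ξ₀ (WW ξ₀ j) (CN ξ₀ j (WW ξ₀ j))} := by
    intro n
    set s : Finset ℤ := (Finset.range n).image (W gg ξ₀) with hs
    have hsm : ∀ i < n, W gg ξ₀ i ∈ s := fun i hi =>
      Finset.mem_image_of_mem _ (Finset.mem_range.2 hi)
    rw [mu_Cy gg (trials p) gg_inj ξ₀ s n hsm]
    have h1 := prod_path gg (fun (_ : ℤ) (e : Bool) (k : ℕ) => coin (p k) {e}) ξ₀ s n hsm
    rw [show (∏ j ∈ Finset.range n, coin (p (CN ξ₀ j (WW ξ₀ j)))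
      {ξ₀ (WW ξ₀ j) (CN ξ₀ j (WW ξ₀ j))}) = _ from h1]
    refine Finset.prod_congr rfl fun z _ => ?_
    have h2 : {a : ℕ → Bool | ∀ k < C gg ξ₀ n z, a k = ξ₀ z k} =
        Set.pi ((Finset.range (C gg ξ₀ n z) : Finset ℕ) : Set ℕ) (fun k => {ξ₀ z k}) := by
      ext a
      simp [Set.mem_pi]
    rw [h2, trials, Measure.infinitePi_pi _ (fun i _ => MeasurableSet.of_discrete)]
  rw [hpath, hpath, Finset.prod_range_succ]

lemma earlier_eq (ξ₀ : ℤ → ℕ → Bool) (n : ℕ) : earlier (WW ξ₀) n = CN ξ₀ n (WW ξ₀ n) := by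
  have := C_card gg ξ₀ n (WW ξ₀ n)
  rw [earlier]
  exact this.symm

/-- changing the next arrow -/
lemma exists_next (ξ₀ : ℤ → ℕ → Bool) (n : ℕ) (s : Bool) :
    ∃ ξ₁, (∀ i ≤ n, WW ξ₁ i = WW ξ₀ i) ∧ ξ₁ (WW ξ₁ n) (CN ξ₁ n (WW ξ₁ n)) = s := by
  classical
  set c := CN ξ₀ n (WW ξ₀ n) with hc
  set ξ₁ : ℤ → ℕ → Bool := Function.update ξ₀ (WW ξ₀ n) (Function.update (ξ₀ (WW ξ₀ n)) c s)
    with hξ₁
  set t : Finset ℤ := (Finset.range n).image (W gg ξ₀) with ht
  have htm : ∀ i < n, W gg ξ₀ i ∈ t := fun i hi =>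
    Finset.mem_image_of_mem _ (Finset.mem_range.2 hi)
  have hmem : ξ₁ ∈ Cy gg ξ₀ n := by
    rw [Cy_eq gg gg_inj ξ₀ t n htm]
    intro z _ k hk
    by_cases hz : z = WW ξ₀ n
    · subst hz
      rw [hξ₁, Function.update_self, Function.update_of_ne]
      exact (ne_of_lt hk)
    · rw [hξ₁, Function.update_of_ne hz]
  refine ⟨ξ₁, hmem, ?_⟩
  have h1 : WW ξ₁ n = WW ξ₀ n := hmem n le_rfl
  have h2 : CN ξ₁ n = CN ξ₀ n := Cy_C gg hmem (Nat.le_succ n)
  rw [h1, h2, ← hc, hξ₁, Function.update_self, Function.update_self]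

lemma path_step (p : Env) (n : ℕ) (x : ℕ → ℤ) (s : Bool) :
    MM p {ξ | (∀ k ≤ n, WW ξ k = x k) ∧ WW ξ (n + 1) = x n + if s = true then 1 else -1} =
      ENNReal.ofReal (if s = true then (p (earlier x n) : ℝ) else 1 - p (earlier x n)) *
        MM p {ξ | ∀ k ≤ n, WW ξ k = x k} := by
  by_cases hex : ∃ ξ₀ : ℤ → ℕ → Bool, ∀ k ≤ n, WW ξ₀ k = x k
  · obtain ⟨ξ₀, h0⟩ := hex
    obtain ⟨ξ₁, h1, h2⟩ := exists_next ξ₀ n s
    have h3 : ∀ k ≤ n, x k = WW ξ₁ k := fun k hk => by rw [h1 k hk, h0 k hk]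
    have hx : {ξ | ∀ k ≤ n, WW ξ k = x k} = Cy gg ξ₁ n := by
      ext ξ
      constructor
      · intro h k hk
        have := h k hk
        rw [h3 k hk] at this
        exact this
      · intro h k hk
        rw [h3 k hk]
        exact h k hk
    have hW1 : WW ξ₁ (n + 1) = WW ξ₁ n + if s = true then 1 else -1 := by
      rw [WW_succ, h2]
    have hx2 : {ξ | (∀ k ≤ n, WW ξ k = x k) ∧ WW ξ (n + 1) = x n + if s = true then 1 else -1} =
        Cy gg ξ₁ (n + 1) := by
      ext ξ
      constructor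
      · rintro ⟨ha, hb⟩ k hk
        rcases Nat.lt_or_ge n k with h | h
        · have : k = n + 1 := by omega
          subst this
          show WW ξ (n + 1) = WW ξ₁ (n + 1)
          rw [hb, hW1, h3 n le_rfl]
        · show WW ξ k = WW ξ₁ k
          rw [ha k h, h3 k h]
      · intro h
        refine ⟨fun k hk => by rw [h3 k hk]; exact h k (by omega), ?_⟩
        have : WW ξ (n + 1) = WW ξ₁ (n + 1) := h (n + 1) le_rfl
        rw [this, hW1, h3 n le_rfl]
    rw [hx, hx2, Cy_succ_prob, h2, coin_singleton, mul_comm]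
    have he : earlier x n = CN ξ₁ n (WW ξ₁ n) := by
      rw [← earlier_eq, earlier, earlier]
      congr 1
      refine Finset.filter_congr fun k hk => ?_
      rw [h3 k (Finset.mem_range.1 hk).le, h3 n le_rfl]
    rw [he]
  · have h1 : {ξ | ∀ k ≤ n, WW ξ k = x k} = ∅ := by
      ext ξ
      simp only [Set.mem_ofPred_eq, Set.mem_empty_iff_false, iff_false]
      exact fun h => hex ⟨ξ, h⟩
    have h2 : {ξ | (∀ k ≤ n, WW ξ k = x k) ∧ WW ξ (n + 1) = x n + if s = true then 1 else -1} =
        ∅ := by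
      ext ξ
      simp only [Set.mem_ofPred_eq, Set.mem_empty_iff_false, iff_false]
      exact fun h => hex ⟨ξ, h.1⟩
    rw [h1, h2]
    simp

/-- the walk driven by the stacks is an excited random walk -/
theorem isERW_WW (p : Env) : IsERW p (MM p) (fun n ξ => WW ξ n) where
  measurable := fun n => meas_W gg n
  start := Eventually.of_forall fun _ => rfl
  right := fun n x => by
    have := path_step p n x true
    simpa using this
  left := fun n x => by
    have := path_step p n x false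
    simpa [sub_eq_add_neg] using this

/-- uniqueness of the law of the excited random walk -/
theorem law_ERW (p : Env) {Ω : Type} [MeasurableSpace Ω] (P : Measure Ω) [IsProbabilityMeasure P]
    (X : ℕ → Ω → ℤ) (hX : IsERW p P X) :
    P.map (fun ω n => X n ω) = (MM p).map (fun ξ n => WW ξ n) := by
  have hmX : Measurable (fun (ω : Ω) (n : ℕ) => X n ω) := measurable_pi_lambda _ hX.measurable
  haveI : IsProbabilityMeasure (P.map (fun ω n => X n ω)) :=
    Measure.isProbabilityMeasure_map hmX.aemeasurable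
  refine law_eq gg (trials p) _ fun ξ₀ n => ?_
  have hcyl : MeasurableSet {x : ℕ → ℤ | ∀ j ≤ n, x j = W gg ξ₀ j} := by
    have : {x : ℕ → ℤ | ∀ j ≤ n, x j = W gg ξ₀ j} =
        ⋂ j ∈ Finset.range (n + 1), (fun x => x j) ⁻¹' {W gg ξ₀ j} := by
      ext x; simp [Nat.lt_succ_iff]
    rw [this]
    exact Finset.measurableSet_biInter _ fun i _ =>
      (measurable_pi_apply i) (measurableSet_singleton _)
  rw [Measure.map_apply hmX hcyl]
  have e : (fun (ω : Ω) (n : ℕ) => X n ω) ⁻¹' {x | ∀ j ≤ n, x j = W gg ξ₀ j} =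
      {ω | ∀ k ≤ n, X k ω = WW ξ₀ k} := rfl
  rw [e]
  clear hcyl e
  induction n with
  | zero =>
    have h1 : P {ω | ∀ k ≤ 0, X k ω = WW ξ₀ k} = 1 := by
      rw [← measure_univ (μ := P)]
      refine measure_congr ?_
      filter_upwards [hX.start] with ω hω
      refine propext ⟨fun _ => trivial, fun _ k hk => ?_⟩
      have : k = 0 := by omega
      subst this
      rw [hω]
      rfl
    have h2 : Cy gg ξ₀ 0 = Set.univ := by
      ext ξ
      simp only [Set.mem_univ, iff_true]
      intro i hi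
      have : i = 0 := by omega
      subst this
      rfl
    rw [h1, h2, measure_univ]
  | succ n ih =>
    rw [Cy_succ_prob, ← ih]
    have hset : {ω | ∀ k ≤ n + 1, X k ω = WW ξ₀ k} =
        {ω | (∀ k ≤ n, X k ω = WW ξ₀ k) ∧ X (n + 1) ω = WW ξ₀ n +
          if ξ₀ (WW ξ₀ n) (CN ξ₀ n (WW ξ₀ n)) = true then 1 else -1} := by
      ext ω
      constructor
      · intro h
        refine ⟨fun k hk => h k (by omega), ?_⟩
        rw [h (n + 1) le_rfl, WW_succ]
      · rintro ⟨ha, hb⟩ k hk
        rcases Nat.lt_or_ge n k with h | h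
        · have : k = n + 1 := by omega
          subst this
          rw [hb, WW_succ]
        · exact ha k h
    rw [hset, coin_singleton, mul_comm, ← earlier_eq]
    cases hb : ξ₀ (WW ξ₀ n) (earlier (WW ξ₀) n)
    · have := hX.left n (WW ξ₀)
      simpa [sub_eq_add_neg] using this
    · have := hX.right n (WW ξ₀)
      simpa using this

lemma meas_tendsto : MeasurableSet {x : ℕ → ℤ | Tendsto x atTop atTop} :=
  measurableSet_tendsto atTop (fun n => measurable_pi_apply n)

/-- every excited random walk in the environment `pC` is transient to the right -/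
theorem erw_transient {Ω : Type} [MeasurableSpace Ω] (P : Measure Ω) [IsProbabilityMeasure P]
    (X : ℕ → Ω → ℤ) (hX : IsERW pC P X) : ∀ᵐ ω ∂P, Tendsto (fun n => X n ω) atTop atTop := by
  have hmX : Measurable (fun (ω : Ω) (n : ℕ) => X n ω) := measurable_pi_lambda _ hX.measurable
  have hmW : Measurable (fun (ξ : ℤ → ℕ → Bool) (n : ℕ) => WW ξ n) :=
    measurable_pi_lambda _ fun n => meas_W gg n
  have h1 : ∀ᵐ x ∂(P.map (fun ω n => X n ω)), Tendsto x atTop atTop := by
    rw [law_ERW pC P X hX, ae_map_iff hmW.aemeasurable meas_tendsto]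
    exact WW_tendsto
  exact (ae_map_iff hmX.aemeasurable meas_tendsto).1 h1

end Pool.Agent.NH97.ERW
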