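import Pool.Agent.NH97.ERW.Trials3

set_option autoImplicit false

/-!
The limits `μ`, `ρ(x)`, `ν(x)`, `θ`.
-/

namespace Pool.Agent.NH97.ERW

open MeasureTheory ProbabilityTheory Filter Topology

variable {p : Env} (hg : ∀ᵐ b ∂(trials p), Good b) {B : ℝ} (hB : ∀ n, |dl p n| ≤ B)

include hg hB

lemma tendsto_mean_dl {l : ℝ} (hl : Tendsto (dl p) atTop (𝓝 l)) :
    Tendsto (fun x : ℕ => ∫ b, dl p (x + U x b) ∂(trials p)) atTop (𝓝 l) := by
  have h : Tendsto (fun x : ℕ => ∫ b, dl p (x + U x b) ∂(trials p)) atTop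
      (𝓝 (∫ _b, l ∂(trials p))) := by
    refine tendsto_integral_of_dominated_convergence (fun _ => B) ?_ (integrable_const _) ?_ ?_
    · intro x
      exact (meas_dl x).aestronglyMeasurable
    · intro x
      exact Eventually.of_forall fun b => hB _
    · refine Eventually.of_forall fun b => hl.comp ?_
      exact tendsto_atTop_mono (fun x => Nat.le_add_right x _) tendsto_id
  simpa using h

lemma rho_eq (x : ℕ) : rho p 1 x = ∫ b, dl p (x + U x b) ∂(trials p) := by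
  rw [rho, integral_sub (int_U hg hB x) (integrable_const _), mean_U hg hB x]
  simp

theorem tendsto_rho {l : ℝ} (hl : Tendsto (dl p) atTop (𝓝 l)) :
    Tendsto (rho p 1) atTop (𝓝 l) := by
  have := tendsto_mean_dl hg hB hl
  refine this.congr fun x => ?_
  rw [rho_eq hg hB x]

theorem tendsto_mu {l : ℝ} (hl : Tendsto (dl p) atTop (𝓝 l)) :
    Tendsto (fun x : ℕ => meanU p x / x) atTop (𝓝 1) := by
  have h1 := (tendsto_mean_dl hg hB hl).mul tendsto_inv_atTop_nhds_zero_nat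
  rw [mul_zero] at h1
  have h2 := h1.const_add 1
  rw [add_zero] at h2
  refine h2.congr' ?_
  filter_upwards [eventually_gt_atTop 0] with x hx
  have hx' : (x : ℝ) ≠ 0 := by exact_mod_cast hx.ne'
  rw [meanU, mean_U hg hB x]
  field_simp

omit hg in
lemma abs_mean_dl (x : ℕ) : |∫ b, dl p (x + U x b) ∂(trials p)| ≤ B := by
  have := norm_integral_le_of_norm_le_const (μ := trials p) (f := fun b => dl p (x + U x b))
    (C := B) (Eventually.of_forall fun b => hB _)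
  simpa using this

lemma nu_bound (Q : ℝ) (hQ : ∀ N, ∑ i ∈ Finset.range N, dr p i ^ 2 ≤ Q) (x : ℕ) {η : ℝ}
    (hη : 0 < η) :
    |(∫ b, ((U x b : ℝ) - 1 * x) ^ 2 ∂(trials p)) - (2 : ℝ) * x| ≤
      (Q + B) + (η * (2 * x + (B + Q)) + (1 + η⁻¹) * B ^ 2) := by
  have hB0 : 0 ≤ B := (abs_nonneg _).trans (hB 0)
  have h1 := var_U hg hB Q hQ x
  have h2 := abs_mean_dl hB x
  set V : (ℕ → Bool) → ℝ := fun b => (U x b : ℝ) - x - dl p (x + U x b) with hV
  set δ : (ℕ → Bool) → ℝ := fun b => dl p (x + U x b) with hδ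
  have hmV : Measurable V := ((meas_Ureal x).sub measurable_const).sub (meas_dl x)
  have hiV : Integrable (fun b => V b ^ 2) (trials p) := by
    have h3 : Integrable (fun b => 3 * ((U x b : ℝ) ^ 2 + x ^ 2 + B ^ 2)) (trials p) :=
      (((int_sq hg hB x).add (integrable_const _)).add (integrable_const _)).const_mul 3
    refine h3.mono' (hmV.pow_const 2).aestronglyMeasurable (Eventually.of_forall fun b => ?_)
    rw [Real.norm_eq_abs, abs_of_nonneg (sq_nonneg _)]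
    have h4 : δ b ^ 2 ≤ B ^ 2 := by
      rw [← sq_abs]
      exact pow_le_pow_left₀ (abs_nonneg _) (hB _) 2
    have h5 : V b = U x b - x - δ b := rfl
    rw [h5]
    nlinarith [sq_nonneg ((U x b : ℝ) + x), sq_nonneg ((U x b : ℝ) + δ b),
      sq_nonneg ((x : ℝ) - δ b)]
  have hd2 : Integrable (fun b => ((U x b : ℝ) - 1 * x) ^ 2 - V b ^ 2) (trials p) := by
    refine Integrable.sub ?_ hiV
    have h3 := ((int_sq hg hB x).sub ((int_U hg hB x).const_mul (2 * x))).add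
      (integrable_const ((x : ℝ) ^ 2))
    refine h3.congr (Eventually.of_forall fun b => ?_)
    simp only [Pi.add_apply, Pi.sub_apply]
    ring
  have h3 : |∫ b, (((U x b : ℝ) - 1 * x) ^ 2 - V b ^ 2) ∂(trials p)| ≤
      ∫ b, (η * V b ^ 2 + (1 + η⁻¹) * B ^ 2) ∂(trials p) := by
    refine (abs_integral_le_integral_abs).trans ?_
    refine integral_mono hd2.abs ((hiV.const_mul η).add (integrable_const _)) fun b => ?_
    have h4 : δ b ^ 2 ≤ B ^ 2 := by
      rw [← sq_abs]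
      exact pow_le_pow_left₀ (abs_nonneg _) (hB _) 2
    have h5 : ((U x b : ℝ) - 1 * x) ^ 2 - V b ^ 2 = 2 * V b * δ b + δ b ^ 2 := by
      simp only [hV, hδ]; ring
    simp only
    rw [h5]
    have h6 : η⁻¹ * δ b ^ 2 ≤ η⁻¹ * B ^ 2 := mul_le_mul_of_nonneg_left h4 (inv_pos.2 hη).le
    have h7 : 0 ≤ η⁻¹ * (η * V b - δ b) ^ 2 := mul_nonneg (inv_pos.2 hη).le (sq_nonneg _)
    have h8 : 0 ≤ η⁻¹ * (η * V b + δ b) ^ 2 := mul_nonneg (inv_pos.2 hη).le (sq_nonneg _)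
    have h9 : η⁻¹ * (η * V b - δ b) ^ 2 = η * V b ^ 2 - 2 * V b * δ b + η⁻¹ * δ b ^ 2 := by
      field_simp
      ring
    have h10 : η⁻¹ * (η * V b + δ b) ^ 2 = η * V b ^ 2 + 2 * V b * δ b + η⁻¹ * δ b ^ 2 := by
      field_simp
      ring
    rw [abs_le]
    constructor <;> nlinarith [sq_nonneg (δ b)]
  rw [integral_add (hiV.const_mul η) (integrable_const _), integral_const_mul] at h3
  have h11 : ∫ b, (((U x b : ℝ) - 1 * x) ^ 2 - V b ^ 2) ∂(trials p) =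
      ∫ b, ((U x b : ℝ) - 1 * x) ^ 2 ∂(trials p) - ∫ b, V b ^ 2 ∂(trials p) := by
    rw [← integral_sub ?_ hiV]
    have := hd2.add hiV
    refine this.congr (Eventually.of_forall fun b => ?_)
    simp only [Pi.add_apply]; ring
  rw [h11] at h3
  simp only [integral_const, probReal_univ, smul_eq_mul] at h3
  rw [abs_le] at h1 h2 h3 ⊢
  have h12 : ∫ b, V b ^ 2 ∂(trials p) ≤ 2 * x + (B + Q) := by linarith
  have h13 := mul_le_mul_of_nonneg_left h12 hη.le
  constructor <;> linarith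

theorem tendsto_nu (Q : ℝ) (hQ : ∀ N, ∑ i ∈ Finset.range N, dr p i ^ 2 ≤ Q) :
    Tendsto (nu p 1) atTop (𝓝 2) := by
  have hsq : Tendsto (fun x : ℕ => (Real.sqrt x)⁻¹) atTop (𝓝 0) :=
    tendsto_inv_atTop_zero.comp (Real.tendsto_sqrt_atTop.comp tendsto_natCast_atTop_atTop)
  have hinv : Tendsto (fun x : ℕ => ((x : ℝ))⁻¹) atTop (𝓝 0) := tendsto_inv_atTop_nhds_zero_nat
  have hbd : Tendsto (fun x : ℕ => (Q + B) * (x : ℝ)⁻¹ + ((Real.sqrt x)⁻¹ *
      (2 + (B + Q) * (x : ℝ)⁻¹) + ((x : ℝ)⁻¹ + (Real.sqrt x)⁻¹) * B ^ 2)) atTop (𝓝 0) := by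
    have h1 := (hinv.const_mul (Q + B)).add ((hsq.mul ((hinv.const_mul (B + Q)).const_add 2)).add
      ((hinv.add hsq).mul_const (B ^ 2)))
    simpa using h1
  rw [tendsto_iff_dist_tendsto_zero]
  refine squeeze_zero' (Eventually.of_forall fun _ => dist_nonneg) ?_ hbd
  filter_upwards [eventually_gt_atTop 0] with x hx
  have hx' : (0 : ℝ) < x := by exact_mod_cast hx
  have hs : 0 < Real.sqrt x := Real.sqrt_pos.2 hx'
  have hss : Real.sqrt x * Real.sqrt x = x := Real.mul_self_sqrt hx'.le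
  have h1 := nu_bound hg hB Q hQ x (inv_pos.2 hs)
  rw [Real.dist_eq, nu]
  have h2 : (∫ b, ((U x b : ℝ) - 1 * x) ^ 2 ∂(trials p)) / x - 2 =
      ((∫ b, ((U x b : ℝ) - 1 * x) ^ 2 ∂(trials p)) - 2 * x) * (x : ℝ)⁻¹ := by
    field_simp
  rw [h2, abs_mul, abs_of_pos (inv_pos.2 hx')]
  refine (mul_le_mul_of_nonneg_right h1 (inv_pos.2 hx').le).trans (le_of_eq ?_)
  have h3 : Real.sqrt x * (x : ℝ)⁻¹ = (Real.sqrt x)⁻¹ := by
    rw [eq_comm, inv_eq_one_div, div_eq_iff hs.ne', mul_assoc, mul_comm (x : ℝ)⁻¹, ← mul_assoc, hss,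
      mul_inv_cancel₀ hx'.ne']
  rw [inv_inv]
  have h4 : (Q + B + ((Real.sqrt x)⁻¹ * (2 * x + (B + Q)) + (1 + Real.sqrt x) * B ^ 2)) * (x : ℝ)⁻¹ =
      (Q + B) * (x : ℝ)⁻¹ + ((Real.sqrt x)⁻¹ * (2 * (x * (x : ℝ)⁻¹) + (B + Q) * (x : ℝ)⁻¹) +
        ((x : ℝ)⁻¹ + Real.sqrt x * (x : ℝ)⁻¹) * B ^ 2) := by ring
  rw [h4, h3, mul_inv_cancel₀ hx'.ne', mul_one]

theorem tendsto_theta (Q : ℝ) (hQ : ∀ N, ∑ i ∈ Finset.range N, dr p i ^ 2 ≤ Q) {l : ℝ}
    (hl : Tendsto (dl p) atTop (𝓝 l)) : Tendsto (theta p 1) atTop (𝓝 l) := by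
  have h1 := ((tendsto_rho hg hB hl).const_mul 2).div (tendsto_nu hg hB Q hQ) (by norm_num)
  have h2 : 2 * l / 2 = l := by ring
  rw [h2] at h1
  exact h1

end Pool.Agent.NH97.ERW
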