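import Pool.Agent.NH97.ERW.Limits

set_option autoImplicit false

/-!
The Lyapunov function, part 1: inequalities for the building blocks.
-/

namespace Pool.Agent.NH97.ERW

open MeasureTheory ProbabilityTheory Filter Topology

/-- `(1 - 1/j)^x / j` -/
noncomputable def r (j x : ℕ) : ℝ := (1 - 1 / (j : ℝ)) ^ x / j

/-- block sums -/
noncomputable def G (k x : ℕ) : ℝ := ∑ j ∈ Finset.Ico (2 ^ k) (2 ^ (k + 1)), r j x

noncomputable def D (k x : ℕ) : ℝ := ∑ j ∈ Finset.Ico (2 ^ k) (2 ^ (k + 1)), r j x / (j + 1)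

noncomputable def av (k : ℕ) : ℝ := 1 / ((k : ℝ) + 1) ^ 2

/-- the correction of the drift -/
noncomputable def gc (C : ℝ) (n : ℕ) : ℝ := C / (Nat.log 2 n + C)

lemma base_mem {j : ℕ} (hj : 1 ≤ j) : 0 ≤ 1 - 1 / (j : ℝ) ∧ 1 - 1 / (j : ℝ) ≤ 1 := by
  have h1 : (1 : ℝ) ≤ j := by exact_mod_cast hj
  have h2 : 1 / (j : ℝ) ≤ 1 := by rw [div_le_one (by linarith)]; exact h1
  have h3 : 0 ≤ 1 / (j : ℝ) := by positivity
  constructor <;> linarith

lemma r_nonneg {j : ℕ} (hj : 1 ≤ j) (x : ℕ) : 0 ≤ r j x := by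
  have := (base_mem hj).1
  unfold r; positivity

lemma r_le {j : ℕ} (hj : 1 ≤ j) (x : ℕ) : r j x ≤ 1 / j := by
  have h1 : (1 : ℝ) ≤ j := by exact_mod_cast hj
  unfold r
  refine div_le_div_of_nonneg_right ?_ (by linarith)
  exact pow_le_one₀ (base_mem hj).1 (base_mem hj).2

lemma r_anti {j : ℕ} (hj : 1 ≤ j) {x y : ℕ} (h : x ≤ y) : r j y ≤ r j x := by
  have h1 : (1 : ℝ) ≤ j := by exact_mod_cast hj
  unfold r
  refine div_le_div_of_nonneg_right ?_ (by linarith)
  exact pow_le_pow_of_le_one (base_mem hj).1 (base_mem hj).2 h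

lemma block_pos {k j : ℕ} (hj : j ∈ Finset.Ico (2 ^ k) (2 ^ (k + 1))) : 1 ≤ j :=
  (Nat.one_le_two_pow).trans (Finset.mem_Ico.1 hj).1

lemma G_nonneg (k x : ℕ) : 0 ≤ G k x :=
  Finset.sum_nonneg fun _ hj => r_nonneg (block_pos hj) x

lemma G_le_one (k x : ℕ) : G k x ≤ 1 := by
  calc G k x ≤ ∑ _j ∈ Finset.Ico (2 ^ k) (2 ^ (k + 1)), (1 : ℝ) / 2 ^ k := by
        refine Finset.sum_le_sum fun j hj => (r_le (block_pos hj) x).trans ?_
        refine one_div_le_one_div_of_le (by positivity) ?_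
        have := (Finset.mem_Ico.1 hj).1
        exact_mod_cast this
    _ = 1 := by
        rw [Finset.sum_const, Nat.card_Ico, pow_succ]
        have : 2 ^ k * 2 - 2 ^ k = 2 ^ k := by omega
        rw [this, nsmul_eq_mul]
        push_cast
        field_simp

lemma G_anti (k : ℕ) {x y : ℕ} (h : x ≤ y) : G k y ≤ G k x :=
  Finset.sum_le_sum fun _ hj => r_anti (block_pos hj) h

lemma G_tendsto (k : ℕ) : Tendsto (G k) atTop (𝓝 0) := by
  have : Tendsto (fun x => ∑ j ∈ Finset.Ico (2 ^ k) (2 ^ (k + 1)), r j x) atTop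
      (𝓝 (∑ j ∈ Finset.Ico (2 ^ k) (2 ^ (k + 1)), (0 : ℝ))) := by
    refine tendsto_finsetSum _ fun j hj => ?_
    have h1 := base_mem (block_pos hj)
    have hj1 : (1 : ℝ) ≤ j := by exact_mod_cast block_pos hj
    have h2 : 1 - 1 / (j : ℝ) < 1 := by
      have : 0 < 1 / (j : ℝ) := by positivity
      linarith
    have h3 := (tendsto_pow_atTop_nhds_zero_of_lt_one h1.1 h2).div_const (j : ℝ)
    rw [zero_div] at h3
    exact h3
  rw [Finset.sum_const_zero] at this
  exact this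

lemma D_nonneg (k x : ℕ) : 0 ≤ D k x :=
  Finset.sum_nonneg fun j hj => div_nonneg (r_nonneg (block_pos hj) x) (by positivity)

lemma D_anti (k : ℕ) {x y : ℕ} (h : x ≤ y) : D k y ≤ D k x :=
  Finset.sum_le_sum fun j hj => div_le_div_of_nonneg_right (r_anti (block_pos hj) h)
    (by positivity)

lemma D_le_G (k x : ℕ) : D k x ≤ G k x :=
  Finset.sum_le_sum fun j hj => div_le_self (r_nonneg (block_pos hj) x)
    (by have : (0 : ℝ) ≤ j := Nat.cast_nonneg j
        linarith)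

lemma gc_nonneg {C : ℝ} (hC : 0 < C) (n : ℕ) : 0 ≤ gc C n := by
  unfold gc; positivity

lemma gc_le_one {C : ℝ} (hC : 0 < C) (n : ℕ) : gc C n ≤ 1 := by
  unfold gc
  have h1 : (0 : ℝ) ≤ (Nat.log 2 n : ℝ) := Nat.cast_nonneg _
  rw [div_le_one (by linarith)]
  linarith

lemma gc_anti {C : ℝ} (hC : 0 < C) {n m : ℕ} (h : n ≤ m) : gc C m ≤ gc C n := by
  unfold gc
  have h1 : (Nat.log 2 n : ℝ) ≤ (Nat.log 2 m : ℝ) := by exact_mod_cast Nat.log_mono_right h
  have h2 : (0 : ℝ) ≤ (Nat.log 2 n : ℝ) := Nat.cast_nonneg _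
  exact div_le_div_of_nonneg_left hC.le (by linarith) (by linarith)

section

variable {p : Env} (hg : ∀ᵐ b ∂(trials p), Good b) {C : ℝ} (hC : 0 < C)
  (hdl : ∀ n, 4 ≤ n → dl p n = 1 + gc C n)

lemma int_of_bdd (f : ℕ → ℝ) (K : ℝ) (hf : ∀ n, |f n| ≤ K) (x : ℕ) :
    Integrable (fun b => f (U x b)) (trials p) :=
  Integrable.of_bound ((measurable_of_countable f).comp (measurable_U x)).aestronglyMeasurable K
    (Eventually.of_forall fun b => hf _)

lemma int_r {j : ℕ} (hj : 1 ≤ j) (x : ℕ) : Integrable (fun b => r j (U x b)) (trials p) := by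
  refine int_of_bdd (r j) (1 / j) (fun n => ?_) x
  rw [abs_of_nonneg (r_nonneg hj n)]
  exact r_le hj n

include hC in
lemma int_rg {j : ℕ} (hj : 1 ≤ j) (x : ℕ) :
    Integrable (fun b => r j (U x b) / (j + 1) * gc C (x + U x b)) (trials p) := by
  refine int_of_bdd (fun n => r j n / (j + 1) * gc C (x + n)) (1 / j) (fun n => ?_) x
  have h1 := r_nonneg hj n
  have h2 := gc_nonneg hC (x + n)
  have hj0 : (0 : ℝ) ≤ j := Nat.cast_nonneg j
  rw [abs_of_nonneg (by positivity)]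
  have h3 : r j n / (j + 1) ≤ r j n := div_le_self h1 (by linarith)
  have h4 := gc_le_one hC (x + n)
  have h5 : 0 ≤ r j n / (j + 1) := by positivity
  calc r j n / (j + 1) * gc C (x + n) ≤ r j n / (j + 1) * 1 := mul_le_mul_of_nonneg_left h4 h5
    _ ≤ 1 / j := by rw [mul_one]; exact h3.trans (r_le hj n)

include hg hC hdl in
lemma per_j {j : ℕ} (hj : 1 ≤ j) {x : ℕ} (hx : 4 ≤ x) :
    ∫ b, r j (U x b) ∂(trials p) + ∫ b, r j (U x b) / (j + 1) * gc C (x + U x b) ∂(trials p) ≤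
      r (j + 1) x := by
  have hj1 : (1 : ℝ) ≤ j := by exact_mod_cast hj
  have hj0 : (0 : ℝ) < j := by linarith
  have hu0 : 0 ≤ 1 / (j : ℝ) := by positivity
  have hu1 : 1 / (j : ℝ) ≤ 1 := by rw [div_le_one hj0]; exact hj1
  have hu : |1 / (j : ℝ)| ≤ 1 := by rw [abs_of_nonneg hu0]; exact hu1
  have h1 := star_real hg hu x
  have h2 : ∫ b, (r j (U x b) + r j (U x b) / (j + 1) * gc C (x + U x b)) *
      ((j + 1) * (1 + 1 / (j : ℝ)) ^ x) ∂(trials p) ≤ 1 := by
    refine le_trans (integral_mono ?_ (star_int hg hu x) fun b => ?_) h1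
    · exact ((int_r hj x).add (int_rg hC hj x)).mul_const _
    · simp only
      have hd := hdl (x + U x b) (by omega)
      have h3 := Real.add_one_le_exp (1 / (j : ℝ) * dl p (x + U x b))
      have h4 : (0 : ℝ) ≤ (1 - 1 / (j : ℝ)) ^ U x b * (1 + 1 / (j : ℝ)) ^ x := by
        have := (base_mem hj).1
        positivity
      refine le_trans (le_of_eq ?_) (mul_le_mul_of_nonneg_left h3 h4)
      rw [hd, r]
      field_simp
      ring
  rw [integral_mul_const, integral_add (int_r hj x) (int_rg hC hj x)] at h2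
  have hpos : 0 < ((j : ℝ) + 1) * (1 + 1 / (j : ℝ)) ^ x := by positivity
  have h3 : r (j + 1) x = 1 / (((j : ℝ) + 1) * (1 + 1 / (j : ℝ)) ^ x) := by
    rw [r]
    push_cast
    have h4 : 1 - 1 / ((j : ℝ) + 1) = 1 / (1 + 1 / (j : ℝ)) := by
      field_simp
      ring
    rw [h4, div_pow, one_pow]
    field_simp
  rw [h3, le_div_iff₀ hpos]
  exact h2

lemma int_G (k x : ℕ) : Integrable (fun b => G k (U x b)) (trials p) := by
  refine int_of_bdd (G k) 1 (fun n => ?_) x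
  rw [abs_of_nonneg (G_nonneg k n)]
  exact G_le_one k n

include hC in
lemma int_Dg (k x : ℕ) : Integrable (fun b => D k (U x b) * gc C (x + U x b)) (trials p) := by
  refine int_of_bdd (fun n => D k n * gc C (x + n)) 1 (fun n => ?_) x
  have h1 := D_nonneg k n
  have h2 := gc_nonneg hC (x + n)
  rw [abs_of_nonneg (mul_nonneg h1 h2)]
  have h3 : D k n ≤ 1 := (D_le_G k n).trans (G_le_one k n)
  have h4 := gc_le_one hC (x + n)
  nlinarith

lemma sum_shift (f : ℕ → ℝ) (m n : ℕ) (h : m ≤ n) :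
    ∑ j ∈ Finset.Ico m n, f (j + 1) = ∑ j ∈ Finset.Ico m n, f j + (f n - f m) := by
  induction n, h using Nat.le_induction with
  | base => simp
  | succ n hn ih =>
    rw [Finset.sum_Ico_succ_top hn, Finset.sum_Ico_succ_top hn, ih]
    ring

include hg hC hdl in
lemma per_block (k : ℕ) {x : ℕ} (hx : 4 ≤ x) :
    ∫ b, G k (U x b) ∂(trials p) + ∫ b, D k (U x b) * gc C (x + U x b) ∂(trials p) ≤
      G k x + (r (2 ^ (k + 1)) x - r (2 ^ k) x) := by
  have h1 : G k x + (r (2 ^ (k + 1)) x - r (2 ^ k) x) =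
      ∑ j ∈ Finset.Ico (2 ^ k) (2 ^ (k + 1)), r (j + 1) x := by
    rw [sum_shift (fun j => r j x) _ _ (Nat.pow_le_pow_right (by norm_num) (by omega)), G]
  have h2 : ∫ b, G k (U x b) ∂(trials p) =
      ∑ j ∈ Finset.Ico (2 ^ k) (2 ^ (k + 1)), ∫ b, r j (U x b) ∂(trials p) := by
    simp only [G]
    exact integral_finsetSum _ fun j hj => int_r (block_pos hj) x
  have h3 : ∫ b, D k (U x b) * gc C (x + U x b) ∂(trials p) =
      ∑ j ∈ Finset.Ico (2 ^ k) (2 ^ (k + 1)),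
        ∫ b, r j (U x b) / (j + 1) * gc C (x + U x b) ∂(trials p) := by
    simp only [D, Finset.sum_mul]
    exact integral_finsetSum _ fun j hj => int_rg hC (block_pos hj) x
  rw [h1, h2, h3, ← Finset.sum_add_distrib]
  exact Finset.sum_le_sum fun j hj => per_j hg hC hdl (block_pos hj) hx

end

end Pool.Agent.NH97.ERW
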