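import Pool.Agent.NH97.ERW.Lyap1

set_option autoImplicit false

/-!
The Lyapunov function, part 2: comparison of the two error terms.
-/

namespace Pool.Agent.NH97.ERW

open MeasureTheory ProbabilityTheory Filter Topology

noncomputable def wt (k n : ℕ) : ℝ := if k ≤ n then 2 ^ k / 2 ^ n else 2 ^ n / 2 ^ k

lemma wt_nonneg (k n : ℕ) : 0 ≤ wt k n := by unfold wt; split_ifs <;> positivity

lemma sum_wt (n N : ℕ) : ∑ k ∈ Finset.range N, wt k n ≤ 3 := by
  have h : ∑ k ∈ Finset.range N, wt k n ≤ if N ≤ n then (2 : ℝ) ^ N / 2 ^ n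
      else 3 - 2 * (2 ^ n / 2 ^ N) := by
    induction N with
    | zero => simp
    | succ N ih =>
      rw [Finset.sum_range_succ]
      have hn : (0 : ℝ) < 2 ^ n := by positivity
      have hN : (0 : ℝ) < 2 ^ N := by positivity
      rcases Nat.lt_trichotomy N n with h | h | h
      · rw [if_pos (by omega)] at ih
        rw [if_pos (by omega), wt, if_pos (by omega), pow_succ]
        have : (2 : ℝ) ^ N * 2 / 2 ^ n = 2 ^ N / 2 ^ n + 2 ^ N / 2 ^ n := by ring
        linarith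
      · subst h
        rw [if_pos le_rfl, div_self hn.ne'] at ih
        rw [if_neg (by omega), wt, if_pos le_rfl, div_self hn.ne', pow_succ]
        have : (2 : ℝ) * (2 ^ N / (2 ^ N * 2)) = 1 := by field_simp
        linarith
      · rw [if_neg (by omega)] at ih
        rw [if_neg (by omega), wt, if_neg (by omega), pow_succ]
        have : (2 : ℝ) * (2 ^ n / (2 ^ N * 2)) = 2 ^ n / 2 ^ N := by field_simp
        linarith
  refine h.trans ?_
  split_ifs with hN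
  · have : (2 : ℝ) ^ N ≤ 2 ^ n := pow_le_pow_right₀ (by norm_num) hN
    have h2 : (2 : ℝ) ^ N / 2 ^ n ≤ 1 := by rw [div_le_one (by positivity)]; exact this
    linarith
  · have : (0 : ℝ) ≤ 2 * (2 ^ n / 2 ^ N) := by positivity
    linarith

lemma A_term {k n x : ℕ} (hk : 1 ≤ k) (hn : 1 ≤ n) (hx : 2 ^ n ≤ x) :
    1 / (k : ℝ) ^ 3 * r (2 ^ k) x ≤ 120 * (1 / (n : ℝ) ^ 3 * (1 / 2 ^ n)) * wt k n := by
  have hk' : (1 : ℝ) ≤ k := by exact_mod_cast hk
  have hn' : (1 : ℝ) ≤ n := by exact_mod_cast hn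
  have h2k : (1 : ℕ) ≤ 2 ^ k := Nat.one_le_two_pow
  rcases le_total n k with h | h
  · -- `n ≤ k`
    obtain ⟨i, rfl⟩ := Nat.exists_eq_add_of_le h
    have h1 : r (2 ^ (n + i)) x ≤ 1 / 2 ^ (n + i) := by
      have := r_le h2k x
      push_cast at this
      exact this
    have h2 : (n : ℝ) ≤ ((n + i : ℕ) : ℝ) := by push_cast; linarith [Nat.cast_nonneg (α := ℝ) i]
    have h3 : 1 / ((n + i : ℕ) : ℝ) ^ 3 ≤ 1 / (n : ℝ) ^ 3 :=
      one_div_le_one_div_of_le (by positivity) (pow_le_pow_left₀ (by linarith) h2 3)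
    have h4 : 1 / (2 : ℝ) ^ (n + i) ≤ 1 / 2 ^ n * wt (n + i) n := by
      unfold wt
      split_ifs with h5
      · have hi : i = 0 := by omega
        subst hi
        simp
      · rw [pow_add]
        have : (2 : ℝ) ^ n / (2 ^ n * 2 ^ i) = 1 / 2 ^ i := by field_simp
        rw [this]
        have h6 : (1 : ℝ) / (2 ^ n * 2 ^ i) = 1 / 2 ^ n * (1 / 2 ^ i) := by field_simp
        rw [h6]
    have h0 := r_nonneg h2k x
    have hw := wt_nonneg (n + i) n
    calc 1 / ((n + i : ℕ) : ℝ) ^ 3 * r (2 ^ (n + i)) x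
        ≤ 1 / (n : ℝ) ^ 3 * (1 / 2 ^ n * wt (n + i) n) := by
          refine mul_le_mul h3 (h1.trans h4) h0 (by positivity)
      _ ≤ _ := by
          have : 0 ≤ 1 / (n : ℝ) ^ 3 * (1 / 2 ^ n * wt (n + i) n) := by positivity
          nlinarith
  · obtain ⟨i, rfl⟩ := Nat.exists_eq_add_of_le h
    have hb := base_mem h2k
    have hb0 : 0 ≤ 1 - 1 / (2 : ℝ) ^ k := by have := hb.1; push_cast at this; exact this
    have hb1 : 1 - 1 / (2 : ℝ) ^ k ≤ 1 := by have := hb.2; push_cast at this; exact this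
    have h1 : (1 - 1 / (2 : ℝ) ^ k) ^ x ≤ 120 / 32 ^ i := by
      have h2 : (1 - 1 / (2 : ℝ) ^ k) ^ x ≤ (1 - 1 / (2 : ℝ) ^ k) ^ (2 ^ (k + i)) :=
        pow_le_pow_of_le_one hb0 hb1 hx
      have h3 : (1 - 1 / (2 : ℝ) ^ k) ^ (2 ^ (k + i)) ≤ Real.exp (-(2 ^ i)) := by
        have h4 : 1 - 1 / (2 : ℝ) ^ k ≤ Real.exp (-(1 / 2 ^ k)) := by
          have := Real.add_one_le_exp (-(1 / (2 : ℝ) ^ k))
          linarith
        refine (pow_le_pow_left₀ hb0 h4 _).trans (le_of_eq ?_)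
        rw [← Real.exp_nat_mul]
        congr 1
        push_cast
        rw [pow_add]
        field_simp
      have h5 : Real.exp (-(2 ^ i)) ≤ 120 / 32 ^ i := by
        have h6 := Real.pow_div_factorial_le_exp ((2 : ℝ) ^ i) (by positivity) 5
        have h7 : ((2 : ℝ) ^ i) ^ 5 = 32 ^ i := by rw [← pow_mul, mul_comm, pow_mul]; norm_num
        rw [h7] at h6
        have h8 : ((Nat.factorial 5 : ℕ) : ℝ) = 120 := by norm_num [Nat.factorial]
        rw [h8] at h6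
        rw [Real.exp_neg]
        have h9 : (0 : ℝ) < 32 ^ i / 120 := by positivity
        refine (inv_anti₀ h9 h6).trans (le_of_eq ?_)
        rw [inv_div]
      exact h2.trans (h3.trans h5)
    have h2 : ((k + i : ℕ) : ℝ) ^ 3 ≤ (k : ℝ) ^ 3 * 8 ^ i := by
      have h3 : ((k + i : ℕ) : ℝ) ≤ k * 2 ^ i := by
        have h4 : (i : ℝ) + 1 ≤ 2 ^ i := by
          have := Nat.lt_two_pow_self (n := i)
          exact_mod_cast this
        push_cast
        have hi : (0 : ℝ) ≤ i := Nat.cast_nonneg i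
        nlinarith
      have h5 : ((2 : ℝ) ^ i) ^ 3 = 8 ^ i := by rw [← pow_mul, mul_comm, pow_mul]; norm_num
      calc ((k + i : ℕ) : ℝ) ^ 3 ≤ (k * 2 ^ i) ^ 3 := pow_le_pow_left₀ (Nat.cast_nonneg _) h3 3
        _ = _ := by rw [mul_pow, h5]
    have h3 : 1 / (k : ℝ) ^ 3 ≤ 8 ^ i / ((k + i : ℕ) : ℝ) ^ 3 := by
      rw [div_le_div_iff₀ (by positivity) (by positivity)]
      linarith
    have h4 : r (2 ^ k) x ≤ 120 / 32 ^ i / 2 ^ k := by
      rw [r]
      push_cast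
      exact div_le_div_of_nonneg_right h1 (by positivity)
    have h5 : wt k (k + i) = 1 / 2 ^ i := by
      rw [wt, if_pos (by omega), pow_add]
      field_simp
    rw [h5]
    calc 1 / (k : ℝ) ^ 3 * r (2 ^ k) x
        ≤ 8 ^ i / ((k + i : ℕ) : ℝ) ^ 3 * (120 / 32 ^ i / 2 ^ k) := by
          refine mul_le_mul h3 h4 (r_nonneg h2k x) (by positivity)
      _ = _ := by
          have h6 : (32 : ℝ) ^ i = 8 ^ i * (2 ^ i * 2 ^ i) := by
            rw [← mul_pow, ← mul_pow]; norm_num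
          rw [h6, pow_add]
          field_simp

lemma av_diff (k : ℕ) : av k - av (k + 1) ≤ 2 * (1 / ((k + 1 : ℕ) : ℝ) ^ 3) := by
  unfold av
  have hk : (0 : ℝ) ≤ k := Nat.cast_nonneg k
  push_cast
  rw [div_sub_div _ _ (by positivity) (by positivity), mul_one_div,
    div_le_div_iff₀ (by positivity) (by positivity)]
  have h : 2 * (((k : ℝ) + 1) ^ 2 * ((k : ℝ) + 1 + 1) ^ 2) -
      (1 * ((k : ℝ) + 1 + 1) ^ 2 - ((k : ℝ) + 1) ^ 2 * 1) * ((k : ℝ) + 1) ^ 3 =
      ((k : ℝ) + 1) ^ 2 * (3 * k + 5) := by ring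
  have h2 : 0 ≤ ((k : ℝ) + 1) ^ 2 * (3 * k + 5) := by positivity
  linarith

lemma av_pos (k : ℕ) : 0 < av k := by unfold av; positivity

lemma av_anti (k : ℕ) : av (k + 1) ≤ av k := by
  unfold av
  have hk : (0 : ℝ) ≤ k := Nat.cast_nonneg k
  push_cast
  exact one_div_le_one_div_of_le (by positivity) (pow_le_pow_left₀ (by positivity) (by linarith) 2)

theorem A_bound {n x : ℕ} (hn : 1 ≤ n) (hx : 2 ^ n ≤ x) (N : ℕ) :
    ∑ k ∈ Finset.range N, (av k - av (k + 1)) * r (2 ^ (k + 1)) x ≤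
      720 * (1 / (n : ℝ) ^ 3 * (1 / 2 ^ n)) := by
  have h1 : ∀ k ∈ Finset.range N, (av k - av (k + 1)) * r (2 ^ (k + 1)) x ≤
      240 * (1 / (n : ℝ) ^ 3 * (1 / 2 ^ n)) * wt (k + 1) n := by
    intro k _
    have h2 := A_term (k := k + 1) (by omega) hn hx
    have h3 := mul_le_mul_of_nonneg_right (av_diff k)
      (r_nonneg (j := 2 ^ (k + 1)) Nat.one_le_two_pow x)
    linarith
  refine (Finset.sum_le_sum h1).trans ?_
  rw [← Finset.mul_sum]
  have h4 : ∑ k ∈ Finset.range N, wt (k + 1) n ≤ 3 := by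
    have h5 := sum_wt n (N + 1)
    rw [Finset.sum_range_succ'] at h5
    have := wt_nonneg 0 n
    linarith
  have h6 : 0 ≤ 1 / (n : ℝ) ^ 3 * (1 / 2 ^ n) := by positivity
  nlinarith

lemma D_lower {m y : ℕ} (hm : 1 ≤ m) (hy : y ≤ 2 * 2 ^ m) : 1 / 64 * (1 / 2 ^ m) ≤ D m y := by
  have hbase : (1 : ℝ) / 16 ≤ (1 - 1 / 2 ^ m) ^ y := by
    have hb := base_mem (j := 2 ^ m) Nat.one_le_two_pow
    push_cast at hb
    obtain ⟨l, rfl⟩ := Nat.exists_eq_add_of_le' hm
    have h1 : (1 : ℝ) / 2 ≤ (1 - 1 / 2 ^ (l + 1)) ^ (2 ^ l) := by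
      have h2 := one_add_mul_le_pow (a := -(1 / (2 : ℝ) ^ (l + 1))) (by
        have h0 : (1 : ℝ) / 2 ^ (l + 1) ≤ 1 := by linarith [hb.1]
        linarith) (2 ^ l)
      have h3 : (1 : ℝ) + ((2 ^ l : ℕ) : ℝ) * -(1 / (2 : ℝ) ^ (l + 1)) = 1 / 2 := by
        push_cast
        rw [pow_succ]
        field_simp
        norm_num
      rw [h3] at h2
      rw [sub_eq_add_neg]
      exact h2
    have h4 : (1 - 1 / (2 : ℝ) ^ (l + 1)) ^ (2 * 2 ^ (l + 1)) ≤ (1 - 1 / 2 ^ (l + 1)) ^ y :=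
      pow_le_pow_of_le_one hb.1 hb.2 hy
    refine le_trans ?_ h4
    have h5 : 2 * 2 ^ (l + 1) = 2 ^ l * 4 := by ring
    rw [h5, pow_mul]
    have h6 := pow_le_pow_left₀ (by norm_num : (0 : ℝ) ≤ 1 / 2) h1 4
    norm_num at h6 ⊢
    exact h6
  have h1 : ∀ j ∈ Finset.Ico (2 ^ m) (2 ^ (m + 1)),
      1 / 16 / ((2 : ℝ) ^ (m + 1)) / (2 ^ (m + 1)) ≤ r j y / (j + 1) := by
    intro j hj
    have hj2 := Finset.mem_Ico.1 hj
    have hj1 := block_pos hj
    have hjr : (2 : ℝ) ^ m ≤ j := by exact_mod_cast hj2.1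
    have hjr2 : (j : ℝ) + 1 ≤ 2 ^ (m + 1) := by exact_mod_cast hj2.2
    have hj0 : (0 : ℝ) < j := by exact_mod_cast hj1
    rw [r]
    have h2 : (1 : ℝ) / 16 ≤ (1 - 1 / (j : ℝ)) ^ y := by
      refine hbase.trans ?_
      refine pow_le_pow_left₀ ?_ ?_ y
      · have hb := base_mem (j := 2 ^ m) Nat.one_le_two_pow
        push_cast at hb
        exact hb.1
      · have := one_div_le_one_div_of_le (by positivity : (0 : ℝ) < 2 ^ m) hjr
        linarith
    refine div_le_div₀ ?_ ?_ (by positivity) hjr2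
    · have := (base_mem hj1).1
      positivity
    · exact div_le_div₀ (by linarith) h2 hj0 (by linarith)
  have h2 := Finset.sum_le_sum h1
  rw [Finset.sum_const, Nat.card_Ico, nsmul_eq_mul] at h2
  refine le_trans (le_of_eq ?_) h2
  have h3 : 2 ^ (m + 1) - 2 ^ m = 2 ^ m := by rw [pow_succ]; omega
  rw [h3, pow_succ]
  push_cast
  field_simp
  norm_num

lemma gc_lower {C : ℝ} (hC : 0 < C) {n y : ℕ} (hn : 1 ≤ n) (hCn : C ≤ n) (hy : y < 2 ^ (n + 3)) :
    C / (4 * n) ≤ gc C y := by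
  have h1 : Nat.log 2 y ≤ n + 2 := by
    rcases Nat.eq_zero_or_pos y with rfl | hy0
    · simp
    · exact Nat.lt_succ_iff.1 (Nat.log_lt_of_lt_pow hy0.ne' hy)
  have h2 : (Nat.log 2 y : ℝ) ≤ n + 2 := by exact_mod_cast h1
  have hn' : (1 : ℝ) ≤ n := by exact_mod_cast hn
  have h0 : (0 : ℝ) ≤ (Nat.log 2 y : ℝ) := Nat.cast_nonneg _
  unfold gc
  exact div_le_div_of_nonneg_left hC.le (by linarith) (by linarith)

section

variable {p : Env} (hg : ∀ᵐ b ∂(trials p), Good b) {C : ℝ} (hC : 0 < C)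
  (hB : ∀ n, |dl p n| ≤ 2)

include hg hC hB in
lemma B_bound {n x : ℕ} (hn : 1 ≤ n) (hx4 : 4 ≤ x) (hx : x < 2 ^ (n + 1)) (hCn : C ≤ n)
    (hC2 : 20000000 ≤ C) :
    720 * (1 / (n : ℝ) ^ 3 * (1 / 2 ^ n)) ≤
      av (n + 1) * ∫ b, D (n + 1) (U x b) * gc C (x + U x b) ∂(trials p) := by
  have hn' : (1 : ℝ) ≤ n := by exact_mod_cast hn
  have hx' : (4 : ℝ) ≤ x := by exact_mod_cast hx4
  -- lower bound of the integral
  have h1 : D (n + 1) (2 * x) * gc C (3 * x) * (1 - ((x : ℝ) + 2) / (2 * x + 1)) ≤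
      ∫ b, D (n + 1) (U x b) * gc C (x + U x b) ∂(trials p) := by
    have hmean : ∫ b, (U x b : ℝ) ∂(trials p) ≤ x + 2 := by
      rw [mean_U hg hB x]
      have := (abs_le.1 (abs_mean_dl (p := p) hB x)).2
      linarith
    have h2 : ∫ b, D (n + 1) (2 * x) * gc C (3 * x) * (1 - (U x b : ℝ) / (2 * x + 1)) ∂(trials p)
        ≤ ∫ b, D (n + 1) (U x b) * gc C (x + U x b) ∂(trials p) := by
      refine integral_mono ?_ (int_Dg hC (n + 1) x) fun b => ?_
      · exact ((integrable_const _).sub ((int_U hg hB x).div_const _)).const_mul _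
      · simp only
        have h3 := D_nonneg (n + 1) (2 * x)
        have h4 := gc_nonneg hC (3 * x)
        have h5 : 0 ≤ D (n + 1) (2 * x) * gc C (3 * x) := mul_nonneg h3 h4
        have hU0 : (0 : ℝ) ≤ U x b := Nat.cast_nonneg _
        rcases Nat.lt_or_ge (2 * x) (U x b) with h | h
        · have h6 : (1 : ℝ) - (U x b : ℝ) / (2 * x + 1) ≤ 0 := by
            have h7 : (2 : ℝ) * x + 1 ≤ U x b := by exact_mod_cast h
            have h8 : 1 ≤ (U x b : ℝ) / (2 * x + 1) := by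
              rw [le_div_iff₀ (by linarith)]; linarith
            linarith
          have h9 : 0 ≤ D (n + 1) (U x b) * gc C (x + U x b) :=
            mul_nonneg (D_nonneg _ _) (gc_nonneg hC _)
          nlinarith
        · have h6 : (1 : ℝ) - (U x b : ℝ) / (2 * x + 1) ≤ 1 := by
            have : 0 ≤ (U x b : ℝ) / (2 * x + 1) := by positivity
            linarith
          have h7 := D_anti (n + 1) h
          have h8 : gc C (3 * x) ≤ gc C (x + U x b) := gc_anti hC (by omega)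
          calc D (n + 1) (2 * x) * gc C (3 * x) * (1 - (U x b : ℝ) / (2 * x + 1))
              ≤ D (n + 1) (2 * x) * gc C (3 * x) * 1 := mul_le_mul_of_nonneg_left h6 h5
            _ ≤ _ := by rw [mul_one]; exact mul_le_mul h7 h8 h4 (D_nonneg _ _)
    refine le_trans ?_ h2
    rw [integral_const_mul, integral_sub (integrable_const _) ((int_U hg hB x).div_const _),
      integral_div]
    simp only [integral_const, probReal_univ, smul_eq_mul, mul_one]
    refine mul_le_mul_of_nonneg_left ?_ (mul_nonneg (D_nonneg _ _) (gc_nonneg hC _))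
    have : (∫ b, (U x b : ℝ) ∂(trials p)) / (2 * x + 1) ≤ ((x : ℝ) + 2) / (2 * x + 1) :=
      div_le_div_of_nonneg_right hmean (by linarith)
    linarith
  have h2 : (1 : ℝ) / 4 ≤ 1 - ((x : ℝ) + 2) / (2 * x + 1) := by
    have h3 : ((x : ℝ) + 2) / (2 * x + 1) ≤ 3 / 4 := by
      rw [div_le_div_iff₀ (by linarith) (by norm_num)]
      linarith
    linarith
  have h3 : 1 / 64 * (1 / 2 ^ (n + 1)) ≤ D (n + 1) (2 * x) :=
    D_lower (by omega) (by omega)
  have h4 : C / (4 * n) ≤ gc C (3 * x) := gc_lower hC hn hCn (by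
    have : 2 ^ (n + 3) = 4 * 2 ^ (n + 1) := by ring
    omega)
  have h5 : 1 / (9 * (n : ℝ) ^ 2) ≤ av (n + 1) := by
    unfold av
    push_cast
    refine one_div_le_one_div_of_le (by positivity) ?_
    nlinarith
  have h6 : 1 / 64 * (1 / (2 : ℝ) ^ (n + 1)) * (C / (4 * n)) * (1 / 4) ≤
      ∫ b, D (n + 1) (U x b) * gc C (x + U x b) ∂(trials p) := by
    refine le_trans ?_ h1
    refine mul_le_mul ?_ h2 (by norm_num) (mul_nonneg (D_nonneg _ _) (gc_nonneg hC _))
    exact mul_le_mul h3 h4 (by positivity) (D_nonneg _ _)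
  have h7 : 1 / (9 * (n : ℝ) ^ 2) * (1 / 64 * (1 / (2 : ℝ) ^ (n + 1)) * (C / (4 * n)) * (1 / 4)) ≤
      av (n + 1) * ∫ b, D (n + 1) (U x b) * gc C (x + U x b) ∂(trials p) :=
    mul_le_mul h5 h6 (by positivity) (av_pos _).le
  refine le_trans ?_ h7
  have h8 : 1 / (9 * (n : ℝ) ^ 2) * (1 / 64 * (1 / (2 : ℝ) ^ (n + 1)) * (C / (4 * n)) * (1 / 4)) =
      C / 18432 * (1 / (n : ℝ) ^ 3 * (1 / 2 ^ n)) := by
    rw [pow_succ (2 : ℝ) n]
    field_simp
    norm_num
  rw [h8]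
  refine mul_le_mul_of_nonneg_right ?_ (by positivity)
  linarith

end

end Pool.Agent.NH97.ERW
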