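import Pool.Agent.NH97.ERW.Lyap2

set_option autoImplicit false

/-!
The Lyapunov function, part 3: the function itself.
-/

namespace Pool.Agent.NH97.ERW

open MeasureTheory ProbabilityTheory Filter Topology

noncomputable def fN (N x : ℕ) : ℝ := ∑ k ∈ Finset.range N, av k * G k x

noncomputable def ff (x : ℕ) : ℝ := ∑' k, av k * G k x

lemma av_summable : Summable av := by
  have h := (Real.summable_one_div_nat_pow (p := 2)).2 (by norm_num)
  have h2 := (summable_nat_add_iff 1).2 h
  refine h2.congr fun k => ?_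
  unfold av
  push_cast
  rfl

lemma term_nonneg (k x : ℕ) : 0 ≤ av k * G k x := mul_nonneg (av_pos k).le (G_nonneg k x)

lemma term_le (k x : ℕ) : av k * G k x ≤ av k := by
  have := mul_le_mul_of_nonneg_left (G_le_one k x) (av_pos k).le
  simpa using this

lemma ff_summable (x : ℕ) : Summable (fun k => av k * G k x) :=
  Summable.of_nonneg_of_le (fun k => term_nonneg k x) (fun k => term_le k x) av_summable

lemma fN_tendsto (x : ℕ) : Tendsto (fun N => fN N x) atTop (𝓝 (ff x)) :=
  (ff_summable x).hasSum.tendsto_sum_nat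

lemma fN_nonneg (N x : ℕ) : 0 ≤ fN N x := Finset.sum_nonneg fun k _ => term_nonneg k x

lemma fN_le (N x : ℕ) : fN N x ≤ ∑' k, av k := by
  refine (Finset.sum_le_sum fun k _ => term_le k x).trans ?_
  exact av_summable.sum_le_tsum _ fun k _ => (av_pos k).le

lemma ff_nonneg (x : ℕ) : 0 ≤ ff x := tsum_nonneg fun k => term_nonneg k x

lemma ff_anti {x y : ℕ} (h : x ≤ y) : ff y ≤ ff x :=
  (ff_summable y).tsum_le_tsum (fun k => mul_le_mul_of_nonneg_left (G_anti k h) (av_pos k).le)
    (ff_summable x)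

lemma ff_tendsto : Tendsto ff atTop (𝓝 0) := by
  have h : Tendsto ff atTop (𝓝 (∑' _k : ℕ, (0 : ℝ))) := by
    refine tendsto_tsum_of_dominated_convergence (bound := av) av_summable ?_ ?_
    · intro k
      have := (G_tendsto k).const_mul (av k)
      rwa [mul_zero] at this
    · refine Eventually.of_forall fun x k => ?_
      rw [Real.norm_eq_abs, abs_of_nonneg (term_nonneg k x)]
      exact term_le k x
  simpa using h

lemma ff_pos (x : ℕ) : 0 < ff x := by
  have h1 : 0 < av 1 * G 1 x := by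
    refine mul_pos (av_pos 1) ?_
    refine Finset.sum_pos (fun j hj => ?_) ⟨2, by simp⟩
    have h2 := (Finset.mem_Ico.1 hj).1
    have h3 : (2 : ℝ) ≤ j := by exact_mod_cast h2
    have h4 : 1 / (j : ℝ) ≤ 1 / 2 := one_div_le_one_div_of_le (by norm_num) h3
    unfold r
    have h5 : 0 < 1 - 1 / (j : ℝ) := by linarith
    positivity
  exact lt_of_lt_of_le h1 ((ff_summable x).le_tsum 1 fun k _ => term_nonneg k x)

section

variable {p : Env} (hg : ∀ᵐ b ∂(trials p), Good b) {C : ℝ} (hC : 0 < C)
  (hB : ∀ n, |dl p n| ≤ 2) (hdl : ∀ n, 4 ≤ n → dl p n = 1 + gc C n)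

include hg hC hB hdl in
lemma step_N {n x : ℕ} (hn : 1 ≤ n) (hx4 : 4 ≤ x) (hx1 : 2 ^ n ≤ x) (hx : x < 2 ^ (n + 1))
    (hCn : C ≤ n) (hC2 : 20000000 ≤ C) {N : ℕ} (hN : n + 1 < N) :
    ∫ b, fN N (U x b) ∂(trials p) ≤ fN N x + av N := by
  have h1 : ∫ b, fN N (U x b) ∂(trials p) =
      ∑ k ∈ Finset.range N, av k * ∫ b, G k (U x b) ∂(trials p) := by
    simp only [fN]
    rw [integral_finsetSum _ fun k _ => (int_G k x).const_mul _]
    simp only [integral_const_mul]
  set I : ℕ → ℝ := fun k => ∫ b, D k (U x b) * gc C (x + U x b) ∂(trials p) with hI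
  have hI0 : ∀ k, 0 ≤ I k := fun k => integral_nonneg fun b =>
    mul_nonneg (D_nonneg _ _) (gc_nonneg hC _)
  set s : ℕ → ℝ := fun k => r (2 ^ k) x with hs
  have h2 : ∑ k ∈ Finset.range N, av k * ∫ b, G k (U x b) ∂(trials p) +
      ∑ k ∈ Finset.range N, av k * I k ≤ fN N x + ∑ k ∈ Finset.range N, av k * (s (k + 1) - s k) := by
    rw [fN, ← Finset.sum_add_distrib, ← Finset.sum_add_distrib]
    refine Finset.sum_le_sum fun k _ => ?_
    have := mul_le_mul_of_nonneg_left (per_block hg hC hdl k hx4) (av_pos k).le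
    simp only [hI, hs]
    linarith
  have h3 : ∀ M : ℕ, ∑ k ∈ Finset.range M, av k * (s (k + 1) - s k) =
      ∑ k ∈ Finset.range M, (av k - av (k + 1)) * s (k + 1) + av M * s M - av 0 * s 0 := by
    intro M
    induction M with
    | zero => simp
    | succ M ih =>
      rw [Finset.sum_range_succ, ih, Finset.sum_range_succ]
      ring
  have h4 := A_bound hn hx1 N
  have h5 := B_bound hg hC hB hn hx4 hx hCn hC2
  have h6 : av (n + 1) * I (n + 1) ≤ ∑ k ∈ Finset.range N, av k * I k :=
    Finset.single_le_sum (f := fun k => av k * I k) (fun k _ => mul_nonneg (av_pos k).le (hI0 k))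
      (Finset.mem_range.2 hN)
  have h7 : av N * s N ≤ av N := by
    have h8 : s N ≤ 1 := by
      refine (r_le (j := 2 ^ N) Nat.one_le_two_pow x).trans ?_
      push_cast
      rw [div_le_one (by positivity)]
      exact one_le_pow₀ (by norm_num)
    have := mul_le_mul_of_nonneg_left h8 (av_pos N).le
    linarith
  have h8 : 0 ≤ av 0 * s 0 := mul_nonneg (av_pos 0).le (r_nonneg (j := 2 ^ 0) Nat.one_le_two_pow x)
  rw [h3] at h2
  rw [h1]
  simp only [hI, hs] at h2 h6 h7 h8
  linarith

include hg hC hB hdl in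
lemma step_f {n x : ℕ} (hn : 1 ≤ n) (hx4 : 4 ≤ x) (hx1 : 2 ^ n ≤ x) (hx : x < 2 ^ (n + 1))
    (hCn : C ≤ n) (hC2 : 20000000 ≤ C) :
    ∫ b, ff (U x b) ∂(trials p) ≤ ff x := by
  have h1 : Tendsto (fun N => ∫ b, fN N (U x b) ∂(trials p)) atTop
      (𝓝 (∫ b, ff (U x b) ∂(trials p))) := by
    refine tendsto_integral_of_dominated_convergence (fun _ => ∑' k, av k) ?_
      (integrable_const _) ?_ ?_
    · intro N
      exact ((measurable_of_countable (fN N)).comp (measurable_U x)).aestronglyMeasurable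
    · intro N
      refine Eventually.of_forall fun b => ?_
      rw [Real.norm_eq_abs, abs_of_nonneg (fN_nonneg _ _)]
      exact fN_le _ _
    · exact Eventually.of_forall fun b => fN_tendsto _
  have h2 : Tendsto (fun N => fN N x + av N) atTop (𝓝 (ff x + 0)) :=
    (fN_tendsto x).add av_summable.tendsto_atTop_zero
  rw [add_zero] at h2
  refine le_of_tendsto_of_tendsto h1 h2 ?_
  filter_upwards [eventually_gt_atTop (n + 1)] with N hN
  exact step_N hg hC hB hdl hn hx4 hx1 hx hCn hC2 hN

include hg hC hB hdl in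
/-- the excessive function -/
theorem exists_q (hC2 : 20000000 ≤ C) :
    ∃ q : ℕ → ℝ, (∀ n, 0 ≤ q n) ∧ (∀ n, q n ≤ 1) ∧ q 0 = 1 ∧ Tendsto q atTop (𝓝 0) ∧
      ∀ x, ∫ b, q (U x b) ∂(trials p) ≤ q x := by
  -- threshold
  obtain ⟨x0, hx0⟩ : ∃ x0 : ℕ, ∀ x, x0 ≤ x → ∫ b, ff (U x b) ∂(trials p) ≤ ff x := by
    obtain ⟨m, hm⟩ := exists_nat_ge C
    refine ⟨max 4 (2 ^ (m + 1)), fun x hx => ?_⟩
    have hx4 : 4 ≤ x := (le_max_left _ _).trans hx
    have hxm : 2 ^ (m + 1) ≤ x := (le_max_right _ _).trans hx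
    have hlog : m + 1 ≤ Nat.log 2 x := (Nat.le_log_iff_pow_le (by norm_num) (by omega)).2 hxm
    refine step_f hg hC hB hdl (n := Nat.log 2 x) (by omega) hx4
      (Nat.pow_log_le_self 2 (by omega)) (Nat.lt_pow_succ_log_self (by norm_num) x) ?_ hC2
    have : (m : ℝ) ≤ (Nat.log 2 x : ℝ) := by exact_mod_cast (by omega : m ≤ Nat.log 2 x)
    linarith
  have hpos := ff_pos x0
  refine ⟨fun n => min 1 (ff n / ff x0), fun n => ?_, fun n => min_le_left _ _, ?_, ?_, ?_⟩
  · have := ff_nonneg n
    exact le_min zero_le_one (by positivity)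
  · have : 1 ≤ ff 0 / ff x0 := by
      rw [le_div_iff₀ hpos, one_mul]
      exact ff_anti (Nat.zero_le _)
    exact min_eq_left this
  · have h1 := ff_tendsto.div_const (ff x0)
    rw [zero_div] at h1
    have h2 := (tendsto_const_nhds (x := (1 : ℝ)) (f := (atTop : Filter ℕ))).min h1
    rw [min_eq_right (zero_le_one' ℝ)] at h2
    exact h2
  · intro x
    have hint : Integrable (fun b => min 1 (ff (U x b) / ff x0)) (trials p) := by
      refine int_of_bdd (fun n => min 1 (ff n / ff x0)) 1 (fun n => ?_) x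
      have h3 : 0 ≤ min 1 (ff n / ff x0) := le_min zero_le_one (div_nonneg (ff_nonneg n) hpos.le)
      rw [abs_of_nonneg h3]
      exact min_le_left _ _
    rcases le_total x x0 with h | h
    · have h1 : min 1 (ff x / ff x0) = 1 := by
        refine min_eq_left ?_
        rw [le_div_iff₀ hpos, one_mul]
        exact ff_anti h
      simp only
      rw [h1]
      refine (integral_mono hint (integrable_const 1) fun b => min_le_left _ _).trans ?_
      simp
    · have h1 : min 1 (ff x / ff x0) = ff x / ff x0 := by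
        refine min_eq_right ?_
        rw [div_le_one hpos]
        exact ff_anti h
      simp only
      rw [h1]
      have hintf : Integrable (fun b => ff (U x b)) (trials p) := by
        refine int_of_bdd ff (ff 0) (fun n => ?_) x
        rw [abs_of_nonneg (ff_nonneg n)]
        exact ff_anti (Nat.zero_le _)
      calc ∫ b, min 1 (ff (U x b) / ff x0) ∂(trials p) ≤ ∫ b, ff (U x b) / ff x0 ∂(trials p) :=
            integral_mono hint (hintf.div_const _) fun b => min_le_right _ _
        _ = (∫ b, ff (U x b) ∂(trials p)) / ff x0 := integral_div _ _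
        _ ≤ ff x / ff x0 := div_le_div_of_nonneg_right (hx0 x h) hpos.le

end

end Pool.Agent.NH97.ERW
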