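import Pool.Agent.NH97.ERW.Defs

set_option autoImplicit false

/-!
Functions of finitely many trials.
-/

namespace Pool.Agent.NH97.ERW

open MeasureTheory ProbabilityTheory Filter Topology

/-- number of failures among the first `i` trials -/
abbrev Fl (b : ℕ → Bool) (i : ℕ) : ℕ := Nat.count (fun j => b j = false) i

/-- `G` depends on the first `N` trials only -/
def Pre {α : Type} (N : ℕ) (G : (ℕ → Bool) → α) : Prop :=
  ∀ b b' : ℕ → Bool, (∀ i < N, b i = b' i) → G b = G b'

/-- the trials cut at `N` -/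
def cut (N : ℕ) (a : Finset.range N → Bool) : ℕ → Bool :=
  fun i => if h : i ∈ Finset.range N then a ⟨i, h⟩ else false

lemma Pre.factor {α : Type} {N : ℕ} {G : (ℕ → Bool) → α} (hG : Pre N G) :
    G = (fun a => G (cut N a)) ∘ (fun (b : ℕ → Bool) (i : Finset.range N) => b i) := by
  funext b
  refine hG _ _ fun i hi => ?_
  simp [cut, hi]

lemma Pre.measurable {α : Type} [MeasurableSpace α] {N : ℕ} {G : (ℕ → Bool) → α} (hG : Pre N G) :
    Measurable G := by
  rw [hG.factor]
  refine Measurable.comp (measurable_of_finite _) ?_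
  exact measurable_pi_lambda _ fun i => measurable_pi_apply _

lemma Pre.bdd {N : ℕ} {G : (ℕ → Bool) → ℝ} (hG : Pre N G) : ∃ C, ∀ b, ‖G b‖ ≤ C := by
  obtain ⟨C, hC⟩ := (Set.finite_range (fun a => ‖G (cut N a)‖)).bddAbove
  refine ⟨C, fun b => ?_⟩
  have h := congrFun hG.factor b
  rw [h]
  exact hC ⟨_, rfl⟩

lemma Pre.integrable {N : ℕ} {G : (ℕ → Bool) → ℝ} (hG : Pre N G) (p : Env) :
    Integrable G (trials p) := by
  obtain ⟨C, hC⟩ := hG.bdd
  exact Integrable.of_bound hG.measurable.aestronglyMeasurable C (Eventually.of_forall hC)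

lemma Pre.mono {α : Type} {N M : ℕ} {G : (ℕ → Bool) → α} (hG : Pre N G) (h : N ≤ M) : Pre M G :=
  fun b b' hb => hG b b' fun i hi => hb i (by omega)

lemma Pre.comp {α β : Type} {N : ℕ} {G : (ℕ → Bool) → α} (hG : Pre N G) (f : α → β) :
    Pre N (fun b => f (G b)) := fun b b' h => by
  show f (G b) = f (G b')
  rw [hG b b' h]

lemma Pre.comp₂ {α β γ : Type} {N : ℕ} {G : (ℕ → Bool) → α} {H : (ℕ → Bool) → β} (hG : Pre N G)
    (hH : Pre N H) (f : α → β → γ) : Pre N (fun b => f (G b) (H b)) :=
  fun b b' h => by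
  show f (G b) (H b) = f (G b') (H b')
  rw [hG b b' h, hH b b' h]

lemma pre_const {α : Type} (N : ℕ) (a : α) : Pre N (fun _ => a) := fun _ _ _ => rfl

lemma pre_count (q : Bool) (i : ℕ) : Pre i (fun b => Nat.count (fun j => b j = q) i) := by
  intro b b' h
  simp only [Nat.count_eq_card_filter_range]
  congr 1
  refine Finset.filter_congr fun j hj => ?_
  rw [h j (Finset.mem_range.1 hj)]

lemma pre_Fl (i : ℕ) : Pre i (fun b => Fl b i) := pre_count false i

lemma pre_coord (i : ℕ) : Pre (i + 1) (fun b => b i) := fun _ _ h => h i (by omega)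

lemma pre_sum {N : ℕ} {G : ℕ → (ℕ → Bool) → ℝ} (hG : ∀ i < N, Pre (i + 1) (G i)) :
    Pre N (fun b => ∑ i ∈ Finset.range N, G i b) := by
  intro b b' h
  refine Finset.sum_congr rfl fun i hi => ?_
  have hi' := Finset.mem_range.1 hi
  exact hG i hi' b b' fun j hj => h j (by omega)

lemma pre_prod {N : ℕ} {G : ℕ → (ℕ → Bool) → ℝ} (hG : ∀ i < N, Pre (i + 1) (G i)) :
    Pre N (fun b => ∏ i ∈ Finset.range N, G i b) := by
  intro b b' h
  refine Finset.prod_congr rfl fun i hi => ?_
  have hi' := Finset.mem_range.1 hi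
  exact hG i hi' b b' fun j hj => h j (by omega)

lemma iIndep_trials (p : Env) : iIndepFun (fun (i : ℕ) (b : ℕ → Bool) => b i) (trials p) :=
  iIndepFun_infinitePi (X := fun _ x => x) (fun _ => measurable_id)

lemma Pre.indep {α β : Type} [MeasurableSpace α] [MeasurableSpace β] {N : ℕ}
    {G : (ℕ → Bool) → α} (hG : Pre N G) (p : Env) (h : Bool → β) :
    IndepFun G (fun b => h (b N)) (trials p) := by
  have h1 := (iIndep_trials p).indepFun_finset (Finset.range N) {N} (by simp)
    (fun i => measurable_pi_apply i)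
  have h2 := h1.comp (φ := fun a => G (cut N a)) (ψ := fun a => h (a ⟨N, by simp⟩))
    (measurable_of_finite _) (measurable_of_finite _)
  rw [hG.factor]
  exact h2

lemma trials_eval (p : Env) (i : ℕ) : (trials p).map (fun b => b i) = coin (p i) := by
  exact Measure.infinitePi_map_eval (fun i => coin (p i)) i

lemma integral_coin (c : unitInterval) (h : Bool → ℝ) :
    ∫ s, h s ∂(coin c) = c * h true + (1 - c) * h false := by
  have hi : ∀ (μ : Measure Bool) [IsFiniteMeasure μ], Integrable h μ := fun μ _ => by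
    obtain ⟨C, hC⟩ := (Set.finite_range (fun a => ‖h a‖)).bddAbove
    exact Integrable.of_bound (measurable_of_finite _).aestronglyMeasurable C
      (Eventually.of_forall fun a => hC ⟨a, rfl⟩)
  have h1 : (0 : ℝ) ≤ 1 - c := by linarith [c.2.2]
  rw [coin, integral_add_measure ((hi _).smul_measure ENNReal.ofReal_ne_top)
    ((hi _).smul_measure ENNReal.ofReal_ne_top), integral_smul_measure,
    integral_smul_measure, integral_dirac, integral_dirac, ENNReal.toReal_ofReal c.2.1,
    ENNReal.toReal_ofReal h1]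
  simp

lemma integral_coord (p : Env) (i : ℕ) (h : Bool → ℝ) :
    ∫ b, h (b i) ∂(trials p) = p i * h true + (1 - p i) * h false := by
  have h1 : ∫ b, h (b i) ∂(trials p) = ∫ s, h s ∂((trials p).map (fun b => b i)) := by
    rw [integral_map (measurable_pi_apply i).aemeasurable]
    exact (measurable_of_finite _).aestronglyMeasurable
  rw [h1, trials_eval, integral_coin]

/-- the basic factorisation -/
lemma Pre.integral_mul {N : ℕ} {G : (ℕ → Bool) → ℝ} (hG : Pre N G) (p : Env) (h : Bool → ℝ) :
    ∫ b, G b * h (b N) ∂(trials p) =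
      (∫ b, G b ∂(trials p)) * (p N * h true + (1 - p N) * h false) := by
  rw [(hG.indep p h).integral_fun_mul_eq_mul_integral hG.measurable.aestronglyMeasurable
    ((measurable_of_finite h).comp (measurable_pi_apply N)).aestronglyMeasurable,
    integral_coord]

/-- drift of the `(i+1)`-st cookie -/
noncomputable def dr (p : Env) (i : ℕ) : ℝ := 2 * (p i : ℝ) - 1

/-- accumulated drift of the first `n` cookies -/
noncomputable def dl (p : Env) (n : ℕ) : ℝ := ∑ i ∈ Finset.range n, dr p i

lemma dl_succ (p : Env) (n : ℕ) : dl p (n + 1) = dl p n + dr p n := by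
  rw [dl, Finset.sum_range_succ, ← dl]

lemma abs_dr_le (p : Env) (i : ℕ) : |dr p i| ≤ 1 := by
  have h1 := (p i).2.1
  have h2 := (p i).2.2
  rw [dr, abs_le]
  constructor <;> linarith

/-- `+1` for a success, `-1` for a failure -/
def sg (s : Bool) : ℝ := if s = true then 1 else -1

@[simp] lemma sg_true : sg true = 1 := rfl
@[simp] lemma sg_false : sg false = -1 := rfl

end Pool.Agent.NH97.ERW
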