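import Pool.Agent.NH97.ERW.Trials1

set_option autoImplicit false

/-!
Trials performed until the `x`-th failure.
-/

namespace Pool.Agent.NH97.ERW

open MeasureTheory ProbabilityTheory Filter Topology

/-- there are infinitely many failures -/
def Good (b : ℕ → Bool) : Prop := ∀ x, ∃ n, x ≤ Fl b n

lemma Fl_mono (b : ℕ → Bool) : Monotone (Fl b) := Nat.count_monotone _

lemma Fl_succ (b : ℕ → Bool) (n : ℕ) : Fl b (n + 1) = Fl b n + if b n = false then 1 else 0 :=
  Nat.count_succ _ _

lemma Fl_add (b : ℕ → Bool) (n : ℕ) : Fl b n + Nat.count (fun j => b j = true) n = n := by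
  induction n with
  | zero => simp [Fl]
  | succ n ih =>
    rw [Fl_succ, Nat.count_succ]
    cases h : b n <;> simp <;> omega

lemma exists_T {b : ℕ → Bool} (hb : Good b) (x : ℕ) :
    ∃ T, (∀ i, Fl b i < x ↔ i < T) ∧ Fl b T = x := by
  classical
  have h := hb x
  refine ⟨Nat.find h, fun i => ?_, ?_⟩
  · constructor
    · intro hi
      by_contra hc
      push Not at hc
      have h1 := Nat.find_spec h
      have h2 := Fl_mono b hc
      omega
    · intro hi
      have := Nat.find_min h hi
      omega
  · have h1 := Nat.find_spec h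
    rcases hT : Nat.find h with _ | n
    · rw [hT] at h1
      simp only [Fl, Nat.count_zero] at h1 ⊢
      omega
    · have h2 : ¬ x ≤ Fl b n := Nat.find_min h (by omega)
      rw [hT, Fl_succ] at h1
      rw [Fl_succ]
      split_ifs at h1 ⊢ <;> omega

lemma U_eq_of {b : ℕ → Bool} {x T : ℕ} (h1 : ∀ i, Fl b i < x ↔ i < T) (h2 : Fl b T = x) :
    x + U x b = T := by
  have h3 : {i : ℕ | b i = true ∧ Nat.count (fun j => b j = false) i < x} =
      ((Finset.range T).filter (fun i => b i = true) : Finset ℕ) := by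
    ext i
    simp only [Set.mem_ofPred_eq, Finset.coe_filter, Finset.mem_range]
    rw [and_comm]
    exact and_congr (h1 i) Iff.rfl
  rw [U, h3, Set.ncard_coe_finset, ← Nat.count_eq_card_filter_range]
  have := Fl_add b T
  omega

lemma alive_iff {b : ℕ → Bool} (hb : Good b) (x i : ℕ) : Fl b i < x ↔ i < x + U x b := by
  obtain ⟨T, h1, h2⟩ := exists_T hb x
  rw [U_eq_of h1 h2]
  exact h1 i

lemma Fl_T {b : ℕ → Bool} (hb : Good b) (x : ℕ) : Fl b (x + U x b) = x := by
  obtain ⟨T, h1, h2⟩ := exists_T hb x
  rw [U_eq_of h1 h2]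
  exact h2

/-- the trial `i` is performed -/
noncomputable def al (x i : ℕ) (b : ℕ → Bool) : ℝ := if Fl b i < x then 1 else 0

lemma al_nonneg (x i : ℕ) (b : ℕ → Bool) : 0 ≤ al x i b := by unfold al; split_ifs <;> norm_num
lemma al_le (x i : ℕ) (b : ℕ → Bool) : al x i b ≤ 1 := by unfold al; split_ifs <;> norm_num
lemma al_sq (x i : ℕ) (b : ℕ → Bool) : al x i b ^ 2 = al x i b := by
  unfold al; split_ifs <;> norm_num

lemma pre_al (x i : ℕ) : Pre i (al x i) := by
  have := (pre_Fl i).comp (fun n => if n < x then (1 : ℝ) else 0)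
  exact this

/-- sums cut at the `x`-th failure -/
lemma sum_al {b : ℕ → Bool} (hb : Good b) (x N : ℕ) (f : ℕ → ℝ) :
    ∑ i ∈ Finset.range N, al x i b * f i = ∑ i ∈ Finset.range (min N (x + U x b)), f i := by
  have h : ∀ i, al x i b * f i = if i < x + U x b then f i else 0 := by
    intro i
    unfold al
    rw [ite_mul, one_mul, zero_mul]
    exact if_congr (alive_iff hb x i) rfl rfl
  simp only [h]
  rw [← Finset.sum_filter]
  congr 1
  ext i
  simp only [Finset.mem_filter, Finset.mem_range, lt_min_iff]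

lemma sum_al_abs_le {b : ℕ → Bool} (hb : Good b) (x N : ℕ) (f : ℕ → ℝ) (c : ℝ)
    (hf : ∀ i, |f i| ≤ c) :
    |∑ i ∈ Finset.range N, al x i b * f i| ≤ c * ((x : ℝ) + U x b) := by
  have hc : 0 ≤ c := (abs_nonneg _).trans (hf 0)
  rw [sum_al hb]
  refine (Finset.abs_sum_le_sum_abs _ _).trans ?_
  refine (Finset.sum_le_sum fun i _ => hf i).trans ?_
  rw [Finset.sum_const, Finset.card_range, nsmul_eq_mul, mul_comm]
  refine mul_le_mul_of_nonneg_left ?_ hc
  have : ((min N (x + U x b) : ℕ) : ℝ) ≤ ((x + U x b : ℕ) : ℝ) :=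
    Nat.cast_le.2 (min_le_right _ _)
  rw [Nat.cast_add] at this
  exact this

lemma sum_sg (b : ℕ → Bool) (n : ℕ) :
    ∑ i ∈ Finset.range n, sg (b i) = n - 2 * (Fl b n : ℝ) := by
  induction n with
  | zero => simp [Fl]
  | succ n ih =>
    rw [Finset.sum_range_succ, ih, Fl_succ]
    cases b n
    · simp; ring
    · simp; ring

/-- the mean of the stopped sum of the signs -/
lemma integral_S (p : Env) (x N : ℕ) :
    ∫ b, ∑ i ∈ Finset.range N, al x i b * sg (b i) ∂(trials p) =
      ∫ b, ∑ i ∈ Finset.range N, al x i b * dr p i ∂(trials p) := by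
  have hpre : ∀ i, Pre (i + 1) (fun b => al x i b * sg (b i)) := fun i =>
    ((pre_al x i).mono (by omega)).comp₂ (pre_coord i) (fun a s => a * sg s)
  have hpre' : ∀ i, Pre (i + 1) (fun b => al x i b * dr p i) := fun i =>
    ((pre_al x i).mono (by omega)).comp (fun a => a * dr p i)
  rw [integral_finsetSum _ fun i _ => (hpre i).integrable p,
    integral_finsetSum _ fun i _ => (hpre' i).integrable p]
  refine Finset.sum_congr rfl fun i _ => ?_
  rw [(pre_al x i).integral_mul p sg, integral_mul_const]
  simp only [sg_true, sg_false, dr]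
  ring

/-- the variance of the stopped martingale -/
lemma integral_M (p : Env) (x N : ℕ) :
    ∫ b, (∑ i ∈ Finset.range N, al x i b * (sg (b i) - dr p i)) ^ 2 ∂(trials p) =
      ∑ i ∈ Finset.range N, (1 - dr p i ^ 2) * ∫ b, al x i b ∂(trials p) := by
  have hpre : ∀ i, Pre (i + 1) (fun b => al x i b * (sg (b i) - dr p i)) := fun i =>
    ((pre_al x i).mono (by omega)).comp₂ (pre_coord i) (fun a s => a * (sg s - dr p i))
  induction N with
  | zero => simp
  | succ N ih =>
    set M : (ℕ → Bool) → ℝ := fun b => ∑ i ∈ Finset.range N, al x i b * (sg (b i) - dr p i) with hM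
    have hMpre : Pre N M := pre_sum fun i _ => hpre i
    have hexp : ∀ b : ℕ → Bool, (∑ i ∈ Finset.range (N + 1), al x i b * (sg (b i) - dr p i)) ^ 2 =
        M b ^ 2 + (2 * M b * al x N b) * (sg (b N) - dr p N) +
          al x N b * (sg (b N) - dr p N) ^ 2 := by
      intro b
      rw [Finset.sum_range_succ]
      have := al_sq x N b
      linear_combination (sg (b N) - dr p N) ^ 2 * this
    simp only [hexp]
    have h1 : Pre N (fun b => M b ^ 2) := hMpre.comp (fun a => a ^ 2)
    have h2 : Pre N (fun b => 2 * M b * al x N b) := hMpre.comp₂ (pre_al x N) (fun a c => 2 * a * c)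
    have h2' : Pre (N + 1) (fun b => (2 * M b * al x N b) * (sg (b N) - dr p N)) :=
      (h2.mono (by omega)).comp₂ (pre_coord N) (fun a s => a * (sg s - dr p N))
    have h3' : Pre (N + 1) (fun b => al x N b * (sg (b N) - dr p N) ^ 2) :=
      ((pre_al x N).mono (by omega)).comp₂ (pre_coord N) (fun a s => a * (sg s - dr p N) ^ 2)
    rw [integral_add, integral_add, ih, h2.integral_mul p (fun s => sg s - dr p N),
      (pre_al x N).integral_mul p (fun s => (sg s - dr p N) ^ 2), Finset.sum_range_succ]
    · simp only [sg_true, sg_false, dr]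
      ring
    · exact h1.integrable p
    · exact h2'.integrable p
    · exact (h1.integrable p).add (h2'.integrable p)
    · exact h3'.integrable p

/-- the exponential functional -/
noncomputable def Yf (p : Env) (u : ℝ) (x i : ℕ) (b : ℕ → Bool) : ℝ :=
  if Fl b i < x then (1 - u * sg (b i)) * Real.exp (u * dr p i) else 1

lemma Yf_nonneg (p : Env) {u : ℝ} (hu : |u| ≤ 1) (x i : ℕ) (b : ℕ → Bool) : 0 ≤ Yf p u x i b := by
  unfold Yf
  rw [abs_le] at hu
  split_ifs
  · refine mul_nonneg ?_ (Real.exp_pos _).le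
    cases b i
    · simp; linarith
    · simp; linarith
  · norm_num

noncomputable def Y (p : Env) (u : ℝ) (x N : ℕ) (b : ℕ → Bool) : ℝ :=
  ∏ i ∈ Finset.range N, Yf p u x i b

lemma pre_Yf (p : Env) (u : ℝ) (x i : ℕ) : Pre (i + 1) (Yf p u x i) := by
  have := ((pre_Fl i).mono (Nat.le_succ i)).comp₂ (pre_coord i)
    (fun n s => if n < x then (1 - u * sg s) * Real.exp (u * dr p i) else 1)
  exact this

lemma pre_Y (p : Env) (u : ℝ) (x N : ℕ) : Pre N (Y p u x N) := by
  have := pre_prod (N := N) (G := fun i => Yf p u x i) fun i _ => pre_Yf p u x i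
  exact this

lemma Y_nonneg (p : Env) {u : ℝ} (hu : |u| ≤ 1) (x N : ℕ) (b : ℕ → Bool) : 0 ≤ Y p u x N b :=
  Finset.prod_nonneg fun i _ => Yf_nonneg p hu x i b

lemma integral_Y_le (p : Env) {u : ℝ} (hu : |u| ≤ 1) (x N : ℕ) :
    ∫ b, Y p u x N b ∂(trials p) ≤ 1 := by
  induction N with
  | zero => simp [Y]
  | succ N ih =>
    refine le_trans ?_ ih
    have hexp : ∀ b : ℕ → Bool, Y p u x (N + 1) b =
        Y p u x N b * (1 - al x N b) + (Y p u x N b * al x N b) *
          ((1 - u * sg (b N)) * Real.exp (u * dr p N)) := by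
      intro b
      rw [Y, Finset.prod_range_succ, ← Y, Yf, al]
      split_ifs <;> ring
    simp only [hexp]
    have h1 : Pre N (fun b => Y p u x N b * (1 - al x N b)) :=
      (pre_Y p u x N).comp₂ (pre_al x N) (fun a c => a * (1 - c))
    have h2 : Pre N (fun b => Y p u x N b * al x N b) :=
      (pre_Y p u x N).comp₂ (pre_al x N) (fun a c => a * c)
    have h2' : Pre (N + 1) (fun b => (Y p u x N b * al x N b) *
        ((1 - u * sg (b N)) * Real.exp (u * dr p N))) :=
      (h2.mono (by omega)).comp₂ (pre_coord N)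
        (fun a s => a * ((1 - u * sg s) * Real.exp (u * dr p N)))
    rw [integral_add (h1.integrable p) (h2'.integrable p),
      h2.integral_mul p (fun s => (1 - u * sg s) * Real.exp (u * dr p N))]
    have h3 : (p N : ℝ) * ((1 - u * sg true) * Real.exp (u * dr p N)) +
        (1 - p N) * ((1 - u * sg false) * Real.exp (u * dr p N)) =
        (1 - u * dr p N) * Real.exp (u * dr p N) := by
      simp only [sg_true, sg_false, dr]; ring
    have h4 : (1 - u * dr p N) * Real.exp (u * dr p N) ≤ 1 := by
      have h5 := Real.add_one_le_exp (-(u * dr p N))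
      have h6 := Real.exp_pos (u * dr p N)
      calc (1 - u * dr p N) * Real.exp (u * dr p N) ≤
          Real.exp (-(u * dr p N)) * Real.exp (u * dr p N) := by
            refine mul_le_mul_of_nonneg_right ?_ h6.le
            linarith
        _ = 1 := by rw [← Real.exp_add]; simp
    rw [h3]
    have h7 : 0 ≤ ∫ b, Y p u x N b * al x N b ∂(trials p) :=
      integral_nonneg fun b => mul_nonneg (Y_nonneg p hu x N b) (al_nonneg x N b)
    have h8 : ∫ b, Y p u x N b ∂(trials p) = ∫ b, Y p u x N b * (1 - al x N b) ∂(trials p) +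
        ∫ b, Y p u x N b * al x N b ∂(trials p) := by
      rw [← integral_add (h1.integrable p) (h2.integrable p)]
      refine integral_congr_ae (Eventually.of_forall fun b => ?_)
      simp only
      ring
    rw [h8]
    have h9 := mul_le_mul_of_nonneg_left h4 h7
    linarith

lemma Y_limit {b : ℕ → Bool} (hb : Good b) (p : Env) (u : ℝ) (x N : ℕ) (hN : x + U x b ≤ N) :
    Y p u x N b = (1 - u) ^ (U x b) * (1 + u) ^ x * Real.exp (u * dl p (x + U x b)) := by
  have h1 : Y p u x N b = ∏ i ∈ Finset.range (x + U x b),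
      ((1 - u * sg (b i)) * Real.exp (u * dr p i)) := by
    have h2 : ∀ i, Yf p u x i b = if i < x + U x b then
        (1 - u * sg (b i)) * Real.exp (u * dr p i) else 1 := by
      intro i
      unfold Yf
      exact if_congr (alive_iff hb x i) rfl rfl
    rw [Y]
    simp only [h2]
    rw [← Finset.prod_filter]
    congr 1
    ext i
    simp only [Finset.mem_filter, Finset.mem_range]
    omega
  have h3 : ∀ n, ∏ i ∈ Finset.range n, ((1 - u * sg (b i)) * Real.exp (u * dr p i)) =
      (1 - u) ^ (n - Fl b n) * (1 + u) ^ (Fl b n) * Real.exp (u * dl p n) := by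
    intro n
    induction n with
    | zero => simp [dl, Fl]
    | succ n ih =>
      rw [Finset.prod_range_succ, ih, dl_succ, mul_add, Real.exp_add, Fl_succ]
      have h4 := Fl_add b n
      cases hbn : b n
      · have e1 : n + 1 - (Fl b n + 1) = n - Fl b n := by omega
        simp only [if_true, e1, sg_false]
        ring
      · have e2 : ¬ ((true : Bool) = false) := by decide
        have e1 : n + 1 - Fl b n = (n - Fl b n) + 1 := by omega
        simp only [if_neg e2, sg_true, add_zero, e1, pow_succ]
        ring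
  rw [h1, h3, Fl_T hb]
  have e3 : x + U x b - x = U x b := by omega
  rw [e3]

end Pool.Agent.NH97.ERW
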