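import Pool.Agent.NH97.ERW.Trials2

set_option autoImplicit false

/-!
Moments of `U(x)`.
-/

namespace Pool.Agent.NH97.ERW

open MeasureTheory ProbabilityTheory Filter Topology

lemma exists_T' {b : ℕ → Bool} {x : ℕ} (h : ∃ n, x ≤ Fl b n) :
    ∃ T, (∀ i, Fl b i < x ↔ i < T) ∧ Fl b T = x := by
  classical
  refine ⟨Nat.find h, fun i => ?_, ?_⟩
  · constructor
    · intro hi
      by_contra hc
      push Not at hc
      have h1 := Nat.find_spec h
      have h2 := Fl_mono b hc
      omega
    · intro hi
      have := Nat.find_min h hi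
      omega
  · have h1 := Nat.find_spec h
    rcases hT : Nat.find h with _ | n
    · rw [hT] at h1
      simp only [Fl, Nat.count_zero] at h1 ⊢
      omega
    · have h2 : ¬ x ≤ Fl b n := Nat.find_min h (by omega)
      rw [hT, Fl_succ] at h1
      rw [Fl_succ]
      split_ifs at h1 ⊢ <;> omega

lemma U_junk {b : ℕ → Bool} {x : ℕ} (h : ¬ ∃ n, x ≤ Fl b n) : U x b = 0 := by
  push Not at h
  rw [U]
  refine Set.Infinite.ncard ?_
  have h1 : {i : ℕ | b i = true ∧ Nat.count (fun j => b j = false) i < x} = {i | b i = true} := by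
    ext i
    simp only [Set.mem_ofPred_eq, and_iff_left_iff_imp]
    intro _
    exact h i
  rw [h1]
  intro hfin
  obtain ⟨N, hN⟩ := hfin.bddAbove
  have h2 : ∀ k, k ≤ Fl b (N + 1 + k) := by
    intro k
    induction k with
    | zero => exact Nat.zero_le _
    | succ k ih =>
      have h3 : b (N + 1 + k) = false := by
        by_contra hc
        have h4 : b (N + 1 + k) = true := by simpa using hc
        have := hN h4
        omega
      rw [← add_assoc, Fl_succ, if_pos h3]
      omega
  have := h (N + 1 + x)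
  have h5 := h2 x
  omega

lemma U_eq_iff {b : ℕ → Bool} {x k : ℕ} (hk : 1 ≤ k) :
    U x b = k ↔ Fl b (x + k - 1) < x ∧ x ≤ Fl b (x + k) := by
  constructor
  · intro hU
    have h : ∃ n, x ≤ Fl b n := by
      by_contra h
      rw [U_junk h] at hU
      omega
    obtain ⟨T, h1, h2⟩ := exists_T' h
    have h3 := U_eq_of h1 h2
    rw [hU] at h3
    rw [h3]
    refine ⟨(h1 _).2 (by omega), h2.ge⟩
  · rintro ⟨h1, h2⟩
    obtain ⟨T, h3, h4⟩ := exists_T' ⟨_, h2⟩
    have h5 := U_eq_of h3 h4
    have h6 := (h3 _).1 h1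
    have h7 : ¬ x + k < T := fun h => by
      have := (h3 _).2 h
      omega
    omega

lemma measurable_U (x : ℕ) : Measurable (U x) := by
  have h1 : ∀ k, 1 ≤ k → MeasurableSet (U x ⁻¹' {k}) := by
    intro k hk
    have e : U x ⁻¹' {k} = {b | Fl b (x + k - 1) < x} ∩ {b | x ≤ Fl b (x + k)} := by
      ext b
      simp only [Set.mem_preimage, Set.mem_singleton_iff, Set.mem_inter_iff, Set.mem_ofPred_eq]
      exact U_eq_iff hk
    rw [e]
    refine MeasurableSet.inter ?_ ?_
    · exact measurableSet_lt (pre_Fl _).measurable measurable_const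
    · exact measurableSet_le measurable_const (pre_Fl _).measurable
  refine measurable_to_countable' fun k => ?_
  rcases Nat.eq_zero_or_pos k with rfl | hk
  · have e : U x ⁻¹' {0} = (⋃ k : ℕ, U x ⁻¹' {k + 1})ᶜ := by
      ext b
      simp only [Set.mem_preimage, Set.mem_singleton_iff, Set.mem_compl_iff, Set.mem_iUnion,
        not_exists]
      constructor
      · intro h k; omega
      · intro h
        rcases Nat.eq_zero_or_pos (U x b) with h0 | h0
        · exact h0
        · exfalso
          have := h (U x b - 1)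
          omega
    rw [e]
    exact (MeasurableSet.iUnion fun k => h1 (k + 1) (by omega)).compl
  · exact h1 k hk

lemma coin_true (c : unitInterval) : coin c {true} = ENNReal.ofReal c := by
  rw [coin, Measure.add_apply, Measure.smul_apply, Measure.smul_apply,
    Measure.dirac_apply' _ (by trivial), Measure.dirac_apply' _ (by trivial)]
  simp

lemma coin_false (c : unitInterval) : coin c {false} = ENNReal.ofReal (1 - c) := by
  rw [coin, Measure.add_apply, Measure.smul_apply, Measure.smul_apply,
    Measure.dirac_apply' _ (by trivial), Measure.dirac_apply' _ (by trivial)]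
  simp

lemma ae_good {p : Env} {ε : ℝ} (hε : 0 < ε) (hp : ∀ i, (p i : ℝ) ≤ 1 - ε) :
    ∀ᵐ b ∂(trials p), Good b := by
  have h1 : ∀ n, ∀ᵐ b ∂(trials p), ∃ i, n ≤ i ∧ b i = false := by
    intro n
    rw [ae_iff]
    have hle : ∀ m : ℕ, trials p {b | ¬ ∃ i, n ≤ i ∧ b i = false} ≤ ENNReal.ofReal (1 - ε) ^ m := by
      intro m
      have h2 : {b : ℕ → Bool | ¬ ∃ i, n ≤ i ∧ b i = false} ⊆
          Set.pi ((Finset.Ico n (n + m) : Finset ℕ) : Set ℕ) (fun _ => {true}) := by
        intro b hb i hi
        simp only [Finset.coe_Ico, Set.mem_Ico] at hi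
        rw [Set.mem_singleton_iff]
        by_contra hc
        exact hb ⟨i, hi.1, by simpa using hc⟩
      refine (measure_mono h2).trans ?_
      rw [trials, Measure.infinitePi_pi _ (fun i _ => MeasurableSet.of_discrete)]
      calc ∏ i ∈ Finset.Ico n (n + m), (coin (p i)) {true} ≤
          ∏ _i ∈ Finset.Ico n (n + m), ENNReal.ofReal (1 - ε) := by
            refine Finset.prod_le_prod' fun i _ => ?_
            rw [coin_true]
            exact ENNReal.ofReal_le_ofReal (hp i)
        _ = _ := by rw [Finset.prod_const, Nat.card_Ico]; congr 1; omega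
    have hlt : ENNReal.ofReal (1 - ε) < 1 := by
      rw [← ENNReal.ofReal_one]
      exact (ENNReal.ofReal_lt_ofReal_iff one_pos).2 (by linarith)
    have := ge_of_tendsto' (ENNReal.tendsto_pow_atTop_nhds_zero_of_lt_one hlt) hle
    exact le_antisymm this bot_le
  have h2 : ∀ᵐ b ∂(trials p), ∀ n, ∃ i, n ≤ i ∧ b i = false := ae_all_iff.2 h1
  filter_upwards [h2] with b hb
  intro x
  induction x with
  | zero => exact ⟨0, Nat.zero_le _⟩
  | succ x ih =>
    obtain ⟨n, hn⟩ := ih
    obtain ⟨i, hi1, hi2⟩ := hb n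
    refine ⟨i + 1, ?_⟩
    rw [Fl_succ, if_pos hi2]
    have := Fl_mono b hi1
    omega

/-- the key exponential inequality -/
theorem star {p : Env} (hg : ∀ᵐ b ∂(trials p), Good b) {u : ℝ} (hu : |u| ≤ 1) (x : ℕ) :
    ∫⁻ b, ENNReal.ofReal ((1 - u) ^ (U x b) * (1 + u) ^ x *
      Real.exp (u * dl p (x + U x b))) ∂(trials p) ≤ 1 := by
  have h1 : ∀ᵐ b ∂(trials p), ENNReal.ofReal ((1 - u) ^ (U x b) * (1 + u) ^ x *
      Real.exp (u * dl p (x + U x b))) ≤ liminf (fun N => ENNReal.ofReal (Y p u x N b)) atTop := by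
    filter_upwards [hg] with b hb
    refine le_liminf_of_le (by isBoundedDefault) ?_
    filter_upwards [eventually_ge_atTop (x + U x b)] with N hN
    rw [Y_limit hb p u x N hN]
  refine (lintegral_mono_ae h1).trans ?_
  refine (lintegral_liminf_le fun N => ENNReal.measurable_ofReal.comp
    (pre_Y p u x N).measurable).trans ?_
  refine liminf_le_of_frequently_le' (Frequently.of_forall fun N => ?_)
  show ∫⁻ b, ENNReal.ofReal (Y p u x N b) ∂(trials p) ≤ 1
  rw [← ofReal_integral_eq_lintegral_ofReal ((pre_Y p u x N).integrable p)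
    (Eventually.of_forall fun b => Y_nonneg p hu x N b), ← ENNReal.ofReal_one]
  exact ENNReal.ofReal_le_ofReal (integral_Y_le p hu x N)

lemma meas_star (p : Env) (u : ℝ) (x : ℕ) : Measurable (fun b => (1 - u) ^ (U x b) * (1 + u) ^ x *
      Real.exp (u * dl p (x + U x b))) := by
  have h : Measurable (fun n : ℕ => (1 - u) ^ n * (1 + u) ^ x * Real.exp (u * dl p (x + n))) :=
    measurable_of_countable _
  exact h.comp (measurable_U x)

lemma star_nonneg (p : Env) {u : ℝ} (hu : |u| ≤ 1) (x n : ℕ) :
    0 ≤ (1 - u) ^ n * (1 + u) ^ x * Real.exp (u * dl p (x + n)) := by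
  rw [abs_le] at hu
  have h1 : 0 ≤ 1 - u := by linarith
  have h2 : 0 ≤ 1 + u := by linarith
  positivity

lemma star_int {p : Env} (hg : ∀ᵐ b ∂(trials p), Good b) {u : ℝ} (hu : |u| ≤ 1) (x : ℕ) :
    Integrable (fun b => (1 - u) ^ (U x b) * (1 + u) ^ x *
      Real.exp (u * dl p (x + U x b))) (trials p) := by
  refine ⟨(meas_star p u x).aestronglyMeasurable, ?_⟩
  rw [hasFiniteIntegral_iff_ofReal (Eventually.of_forall fun b => star_nonneg p hu x _)]
  exact (star hg hu x).trans_lt ENNReal.one_lt_top

theorem star_real {p : Env} (hg : ∀ᵐ b ∂(trials p), Good b) {u : ℝ} (hu : |u| ≤ 1) (x : ℕ) :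
    ∫ b, (1 - u) ^ (U x b) * (1 + u) ^ x * Real.exp (u * dl p (x + U x b)) ∂(trials p) ≤ 1 := by
  rw [integral_eq_lintegral_of_nonneg_ae (Eventually.of_forall fun b => star_nonneg p hu x _)
    (meas_star p u x).aestronglyMeasurable]
  exact ENNReal.toReal_le_of_le_ofReal zero_le_one (by simpa using star hg hu x)

lemma sq_le_pow (n : ℕ) : (n : ℝ) ^ 2 ≤ 4 * (3 / 2) ^ n := by
  have h : ∀ n : ℕ, 5 ≤ n → (n : ℝ) ^ 2 ≤ 4 * (3 / 2) ^ n := by
    intro n hn
    induction n, hn using Nat.le_induction with
    | base => norm_num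
    | succ n hn ih =>
      have hn' : (5 : ℝ) ≤ n := by exact_mod_cast hn
      push_cast
      rw [pow_succ (3 / 2 : ℝ) n]
      nlinarith
  rcases Nat.lt_or_ge n 5 with hn | hn
  · interval_cases n <;> norm_num
  · exact h n hn

section moments

variable {p : Env} (hg : ∀ᵐ b ∂(trials p), Good b) {B : ℝ} (hB : ∀ n, |dl p n| ≤ B)

include hg hB

lemma int_pow (x : ℕ) : Integrable (fun b => ((3 : ℝ) / 2) ^ (U x b)) (trials p) := by
  have h1 := (star_int hg (u := -(1 / 2)) (by rw [abs_neg, abs_of_nonneg] <;> norm_num) x).const_mul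
    (Real.exp (B / 2) * 2 ^ x)
  have hm : Measurable (fun n : ℕ => ((3 : ℝ) / 2) ^ n) := measurable_of_countable _
  refine h1.mono' (hm.comp (measurable_U x)).aestronglyMeasurable (Eventually.of_forall fun b => ?_)
  rw [Real.norm_eq_abs, abs_of_nonneg (by positivity)]
  have h2 : (1 : ℝ) - -(1 / 2) = 3 / 2 := by norm_num
  have h3 : (1 : ℝ) + -(1 / 2) = 1 / 2 := by norm_num
  rw [h2, h3]
  have h4 : Real.exp (B / 2) * 2 ^ x * ((3 / 2) ^ U x b * (1 / 2) ^ x *
      Real.exp (-(1 / 2) * dl p (x + U x b))) =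
      (3 / 2) ^ U x b * (2 ^ x * (1 / 2) ^ x) *
        (Real.exp (B / 2) * Real.exp (-(1 / 2) * dl p (x + U x b))) := by ring
  have h5 : (2 : ℝ) ^ x * (1 / 2) ^ x = 1 := by rw [← mul_pow]; norm_num
  rw [h4, h5, mul_one, ← Real.exp_add]
  have h6 : 1 ≤ Real.exp (B / 2 + -(1 / 2) * dl p (x + U x b)) := by
    rw [Real.one_le_exp_iff]
    have := (abs_le.1 (hB (x + U x b))).2
    linarith
  have h7 : (0 : ℝ) ≤ (3 / 2) ^ U x b := by positivity
  nlinarith

lemma int_sq (x : ℕ) : Integrable (fun b => (U x b : ℝ) ^ 2) (trials p) := by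
  have hm : Measurable (fun n : ℕ => (n : ℝ) ^ 2) := measurable_of_countable _
  refine ((int_pow hg hB x).const_mul 4).mono' (hm.comp (measurable_U x)).aestronglyMeasurable
    (Eventually.of_forall fun b => ?_)
  rw [Real.norm_eq_abs, abs_of_nonneg (by positivity)]
  exact sq_le_pow _

omit hg hB in
lemma meas_Ureal (x : ℕ) : Measurable (fun b => (U x b : ℝ)) :=
  (measurable_of_countable (fun n : ℕ => (n : ℝ))).comp (measurable_U x)

lemma int_U (x : ℕ) : Integrable (fun b => (U x b : ℝ)) (trials p) := by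
  refine ((int_sq hg hB x).add (integrable_const (1 : ℝ))).mono'
    (meas_Ureal x).aestronglyMeasurable (Eventually.of_forall fun b => ?_)
  rw [Real.norm_eq_abs, abs_of_nonneg (by positivity)]
  have : (0 : ℝ) ≤ U x b := by positivity
  simp only [Pi.add_apply]
  nlinarith [sq_nonneg ((U x b : ℝ) - 1)]

omit hg hB in
lemma meas_dl (x : ℕ) : Measurable (fun b => dl p (x + U x b)) :=
  (measurable_of_countable (fun n : ℕ => dl p (x + n))).comp (measurable_U x)

lemma int_dl (x : ℕ) : Integrable (fun b => dl p (x + U x b)) (trials p) :=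
  Integrable.of_bound (meas_dl x).aestronglyMeasurable B (Eventually.of_forall fun b => hB _)

/-- first moment -/
theorem mean_U (x : ℕ) :
    ∫ b, (U x b : ℝ) ∂(trials p) = x + ∫ b, dl p (x + U x b) ∂(trials p) := by
  have hS : Tendsto (fun N => ∫ b, ∑ i ∈ Finset.range N, al x i b * sg (b i) ∂(trials p)) atTop
      (𝓝 (∫ b, ((U x b : ℝ) - x) ∂(trials p))) := by
    refine tendsto_integral_of_dominated_convergence (fun b => 1 * ((x : ℝ) + U x b)) ?_ ?_ ?_ ?_
    · intro N
      refine (Pre.measurable (N := N) ?_).aestronglyMeasurable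
      exact pre_sum fun i _ => ((pre_al x i).mono (by omega)).comp₂ (pre_coord i)
        (fun a s => a * sg s)
    · exact ((integrable_const _).add (int_U hg hB x)).const_mul 1
    · intro N
      filter_upwards [hg] with b hb
      exact sum_al_abs_le hb x N (fun i => sg (b i)) 1 (fun i => by cases b i <;> simp)
    · filter_upwards [hg] with b hb
      refine tendsto_const_nhds.congr' ?_
      filter_upwards [eventually_ge_atTop (x + U x b)] with N hN
      rw [sum_al hb, min_eq_right hN, sum_sg, Fl_T hb]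
      push_cast
      ring
  have hD : Tendsto (fun N => ∫ b, ∑ i ∈ Finset.range N, al x i b * dr p i ∂(trials p)) atTop
      (𝓝 (∫ b, dl p (x + U x b) ∂(trials p))) := by
    refine tendsto_integral_of_dominated_convergence (fun b => 1 * ((x : ℝ) + U x b)) ?_ ?_ ?_ ?_
    · intro N
      refine (Pre.measurable (N := N) ?_).aestronglyMeasurable
      exact pre_sum fun i _ => ((pre_al x i).mono (by omega)).comp (fun a => a * dr p i)
    · exact ((integrable_const _).add (int_U hg hB x)).const_mul 1
    · intro N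
      filter_upwards [hg] with b hb
      exact sum_al_abs_le hb x N (fun i => dr p i) 1 (fun i => abs_dr_le p i)
    · filter_upwards [hg] with b hb
      refine tendsto_const_nhds.congr' ?_
      filter_upwards [eventually_ge_atTop (x + U x b)] with N hN
      rw [sum_al hb, min_eq_right hN, ← dl]
  have h1 := tendsto_nhds_unique hS (by simpa only [integral_S] using hD)
  rw [integral_sub (int_U hg hB x) (integrable_const _)] at h1
  simp at h1
  linarith

/-- second moment -/
theorem var_U (Q : ℝ) (hQ : ∀ N, ∑ i ∈ Finset.range N, dr p i ^ 2 ≤ Q) (x : ℕ) :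
    |∫ b, ((U x b : ℝ) - x - dl p (x + U x b)) ^ 2 ∂(trials p) -
      (2 * x + ∫ b, dl p (x + U x b) ∂(trials p))| ≤ Q := by
  have hM : Tendsto (fun N => ∫ b, (∑ i ∈ Finset.range N, al x i b * (sg (b i) - dr p i)) ^ 2
      ∂(trials p)) atTop (𝓝 (∫ b, ((U x b : ℝ) - x - dl p (x + U x b)) ^ 2 ∂(trials p))) := by
    refine tendsto_integral_of_dominated_convergence (fun b => (2 * ((x : ℝ) + U x b)) ^ 2)
      ?_ ?_ ?_ ?_
    · intro N
      refine (Pre.measurable (N := N) ?_).aestronglyMeasurable
      have : Pre N (fun b => ∑ i ∈ Finset.range N, al x i b * (sg (b i) - dr p i)) :=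
        pre_sum fun i _ => ((pre_al x i).mono (by omega)).comp₂ (pre_coord i)
          (fun a s => a * (sg s - dr p i))
      exact this.comp (fun a => a ^ 2)
    · have h1 := (((int_sq hg hB x).const_mul 4).add ((int_U hg hB x).const_mul (8 * x))).add
        (integrable_const (4 * (x : ℝ) ^ 2))
      refine h1.congr (Eventually.of_forall fun b => ?_)
      simp only [Pi.add_apply]
      ring
    · intro N
      filter_upwards [hg] with b hb
      rw [Real.norm_eq_abs, abs_of_nonneg (sq_nonneg _)]
      have := sum_al_abs_le hb x N (fun i => sg (b i) - dr p i) 2 (fun i => by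
        have h1 := abs_le.1 (abs_dr_le p i)
        rw [abs_le]
        cases b i <;> simp <;> constructor <;> linarith)
      rw [← sq_abs]
      exact pow_le_pow_left₀ (abs_nonneg _) this 2
    · filter_upwards [hg] with b hb
      refine tendsto_const_nhds.congr' ?_
      filter_upwards [eventually_ge_atTop (x + U x b)] with N hN
      rw [sum_al hb, min_eq_right hN, Finset.sum_sub_distrib, sum_sg, Fl_T hb, ← dl]
      push_cast
      ring
  have hA : Tendsto (fun N => ∫ b, ∑ i ∈ Finset.range N, al x i b * 1 ∂(trials p)) atTop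
      (𝓝 (2 * x + ∫ b, dl p (x + U x b) ∂(trials p))) := by
    have e : 2 * x + ∫ b, dl p (x + U x b) ∂(trials p) = ∫ b, ((x : ℝ) + U x b) ∂(trials p) := by
      rw [integral_add (integrable_const _) (int_U hg hB x), mean_U hg hB x]
      simp
      ring
    rw [e]
    refine tendsto_integral_of_dominated_convergence (fun b => 1 * ((x : ℝ) + U x b)) ?_ ?_ ?_ ?_
    · intro N
      refine (Pre.measurable (N := N) ?_).aestronglyMeasurable
      exact pre_sum fun i _ => ((pre_al x i).mono (by omega)).comp (fun a => a * 1)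
    · exact ((integrable_const _).add (int_U hg hB x)).const_mul 1
    · intro N
      filter_upwards [hg] with b hb
      exact sum_al_abs_le hb x N (fun _ => 1) 1 (fun i => by simp)
    · filter_upwards [hg] with b hb
      refine tendsto_const_nhds.congr' ?_
      filter_upwards [eventually_ge_atTop (x + U x b)] with N hN
      rw [sum_al hb, min_eq_right hN]
      simp
  have hdiff := hM.sub hA
  refine le_of_tendsto (hdiff.abs) (Eventually.of_forall fun N => ?_)
  rw [integral_M]
  have e2 : ∫ b, ∑ i ∈ Finset.range N, al x i b * 1 ∂(trials p) =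
      ∑ i ∈ Finset.range N, ∫ b, al x i b ∂(trials p) := by
    simp only [mul_one]
    exact integral_finsetSum _ fun i _ => (pre_al x i).integrable p
  rw [e2, ← Finset.sum_sub_distrib]
  refine (Finset.abs_sum_le_sum_abs _ _).trans (le_trans (Finset.sum_le_sum fun i _ => ?_) (hQ N))
  have h1 : 0 ≤ ∫ b, al x i b ∂(trials p) := integral_nonneg fun b => al_nonneg x i b
  have h2 : ∫ b, al x i b ∂(trials p) ≤ 1 := by
    have := integral_mono ((pre_al x i).integrable p) (integrable_const (1 : ℝ))
      (fun b => al_le x i b)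
    simpa using this
  have h3 : (1 - dr p i ^ 2) * ∫ b, al x i b ∂(trials p) - ∫ b, al x i b ∂(trials p) =
      -(dr p i ^ 2 * ∫ b, al x i b ∂(trials p)) := by ring
  rw [h3, abs_neg, abs_of_nonneg (mul_nonneg (sq_nonneg _) h1)]
  nlinarith [sq_nonneg (dr p i)]

end moments

end Pool.Agent.NH97.ERW
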