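import Pool.Agent.NH97.ERW.Trials3
import Pool.Agent.NH97.ERW.Chain
import Pool.Agent.H543R3.Cyl

set_option autoImplicit false

/-!
The walk driven by the stacks: deterministic part.
-/

namespace Pool.Agent.NH97.ERW

open Filter Topology Pool.H543.ERW

/-- the geometry of `ℤ` with steps `±1` -/
def gg : Geo ℤ Bool where
  u s := if s = true then 1 else -1
  N := Int.natAbs
  N_zero := rfl
  N_neg := fun x => Int.natAbs_neg x
  N_add := fun x y => Int.natAbs_add_le x y
  N_fin := fun R => by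
    refine (Set.finite_Icc (-(R : ℤ)) R).subset fun x hx => ?_
    simp only [Set.mem_ofPred_eq] at hx
    simp only [Set.mem_Icc]
    omega
  N_u := fun e => by cases e <;> simp
  L := AddMonoidHom.id ℤ
  L_le := fun x => by
    simp only [AddMonoidHom.id_apply]
    exact (Int.abs_eq_natAbs x).le
  up := true
  L_up := by simp
  travel := fun v hv => ⟨[], by simp, by simpa using hv.symm⟩

/-- the walk -/
abbrev WW (ξ : ℤ → ℕ → Bool) (n : ℕ) : ℤ := W gg ξ n

/-- departure counts -/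
abbrev CN (ξ : ℤ → ℕ → Bool) (n : ℕ) : ℤ → ℕ := C gg ξ n

lemma WW_zero (ξ : ℤ → ℕ → Bool) : WW ξ 0 = 0 := rfl

lemma WW_succ (ξ : ℤ → ℕ → Bool) (n : ℕ) :
    WW ξ (n + 1) = WW ξ n + if ξ (WW ξ n) (CN ξ n (WW ξ n)) = true then 1 else -1 :=
  W_succ gg ξ n

lemma CN_succ (ξ : ℤ → ℕ → Bool) (n : ℕ) :
    CN ξ (n + 1) = Function.update (CN ξ n) (WW ξ n) (CN ξ n (WW ξ n) + 1) := C_succ gg ξ n

lemma CN_succ_self (ξ : ℤ → ℕ → Bool) (n : ℕ) :
    CN ξ (n + 1) (WW ξ n) = CN ξ n (WW ξ n) + 1 := by rw [CN_succ, Function.update_self]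

lemma CN_succ_ne (ξ : ℤ → ℕ → Bool) (n : ℕ) {y : ℤ} (h : y ≠ WW ξ n) :
    CN ξ (n + 1) y = CN ξ n y := by rw [CN_succ, Function.update_of_ne h]

lemma CN_mono (ξ : ℤ → ℕ → Bool) (y : ℤ) : Monotone (fun n => CN ξ n y) := by
  refine monotone_nat_of_le_succ fun n => ?_
  by_cases h : y = WW ξ n
  · subst h; rw [CN_succ_self]; omega
  · rw [CN_succ_ne ξ n h]

lemma WW_abs (ξ : ℤ → ℕ → Bool) (n : ℕ) : (WW ξ n).natAbs ≤ n := by
  have h : gg.N ((ev gg ξ (0, 0) n).1 - 0) ≤ n := N_ev_le gg ξ 0 0 n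
  rw [sub_zero] at h
  exact h

lemma CN_far (ξ : ℤ → ℕ → Bool) (n : ℕ) (y : ℤ) (h : n ≤ y.natAbs) : CN ξ n y = 0 := by
  show C gg ξ n y = 0
  rw [C_card, Finset.card_eq_zero, Finset.filter_eq_empty_iff]
  intro i hi hy
  have h1 := Finset.mem_range.1 hi
  have h2 := WW_abs ξ i
  have h3 : WW ξ i = y := hy
  rw [h3] at h2
  omega

/-- number of departures to the right -/
def Rt (ξ : ℤ → ℕ → Bool) (T : ℕ) (y : ℤ) : ℕ := Nat.count (fun j => ξ y j = true) (CN ξ T y)

/-- number of departures to the left -/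
def Lf (ξ : ℤ → ℕ → Bool) (T : ℕ) (y : ℤ) : ℕ := Fl (ξ y) (CN ξ T y)

lemma Rt_Lf (ξ : ℤ → ℕ → Bool) (T : ℕ) (y : ℤ) : Lf ξ T y + Rt ξ T y = CN ξ T y := Fl_add _ _

lemma Rt_succ (ξ : ℤ → ℕ → Bool) (T : ℕ) (y : ℤ) : Rt ξ (T + 1) y = Rt ξ T y +
    if y = WW ξ T ∧ ξ (WW ξ T) (CN ξ T (WW ξ T)) = true then 1 else 0 := by
  unfold Rt
  by_cases h : y = WW ξ T
  · subst h
    rw [CN_succ_self, Nat.count_succ]
    simp
  · rw [CN_succ_ne ξ T h, if_neg (fun h' => h h'.1)]
    simp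

lemma Lf_succ (ξ : ℤ → ℕ → Bool) (T : ℕ) (y : ℤ) : Lf ξ (T + 1) y = Lf ξ T y +
    if y = WW ξ T ∧ ξ (WW ξ T) (CN ξ T (WW ξ T)) = false then 1 else 0 := by
  unfold Lf
  by_cases h : y = WW ξ T
  · subst h
    rw [CN_succ_self, Fl_succ]
    simp
  · rw [CN_succ_ne ξ T h, if_neg (fun h' => h h'.1)]
    simp

/-- conservation of the flow -/
lemma flow (ξ : ℤ → ℕ → Bool) (T : ℕ) (y : ℤ) :
    (Rt ξ T y : ℤ) - Lf ξ T (y + 1) = (if y < WW ξ T then 1 else 0) - (if y < 0 then 1 else 0) := by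
  induction T with
  | zero =>
    have h1 : Rt ξ 0 y = 0 := by simp [Rt, CN, C_zero]
    have h2 : Lf ξ 0 (y + 1) = 0 := by simp [Lf, CN, C_zero, Fl]
    rw [h1, h2, WW_zero]
    simp
  | succ T ih =>
    rw [Rt_succ, Lf_succ, WW_succ]
    push_cast
    cases hb : ξ (WW ξ T) (CN ξ T (WW ξ T))
    · simp only [hb, Bool.false_eq_true, and_false, if_false, and_true]
      split_ifs at ih ⊢ <;> omega
    · simp only [hb, Bool.true_eq_false, and_false, if_false, and_true, if_true]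
      split_ifs at ih ⊢ <;> omega

lemma U_mono {b : ℕ → Bool} (hb : Good b) {x y : ℕ} (h : x ≤ y) : U x b ≤ U y b := by
  have h1 := Fl_T hb x
  have h2 := Fl_T hb y
  by_contra hc
  push Not at hc
  -- `y + U y < x + U x` would give `Fl (y + U y) < x`
  rcases Nat.lt_or_ge (y + U y b) (x + U x b) with h3 | h3
  · have := (alive_iff hb x (y + U y b)).2 h3
    omega
  · -- `x + U x ≤ y + U y`: compare the numbers of successes
    have h4 := Fl_add b (x + U x b)
    have h5 := Fl_add b (y + U y b)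
    have h6 : Nat.count (fun j => b j = true) (x + U x b) ≤
        Nat.count (fun j => b j = true) (y + U y b) := Nat.count_monotone _ h3
    omega

lemma U_le_of {b : ℕ → Bool} (hb : Good b) {x c : ℕ} (h : x ≤ Fl b c) :
    U x b ≤ Nat.count (fun j => b j = true) c := by
  have h1 := U_mono hb h
  have h2 : ¬ c < Fl b c + U (Fl b c) b := fun h3 => by
    have := (alive_iff hb (Fl b c) c).2 h3
    omega
  have h3 := Fl_add b c
  omega

lemma le_U_of {b : ℕ → Bool} (hb : Good b) {x c : ℕ} (h : Fl b c < x) :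
    Nat.count (fun j => b j = true) c ≤ U x b := by
  have h1 := U_mono hb (show Fl b c + 1 ≤ x from h)
  have h2 := (alive_iff hb (Fl b c + 1) c).1 (by omega)
  have h3 := Fl_add b c
  omega

/-- the flipped stack -/
def ng (b : ℕ → Bool) : ℕ → Bool := fun i => !(b i)

lemma Fl_ng (b : ℕ → Bool) (n : ℕ) : Fl (ng b) n = Nat.count (fun j => b j = true) n := by
  unfold Fl ng
  simp

lemma count_ng (b : ℕ → Bool) (n : ℕ) : Nat.count (fun j => ng b j = true) n = Fl b n := by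
  unfold Fl ng
  simp

/-- the stacks on the right and on the left -/
def rs (ξ : ℤ → ℕ → Bool) : ℕ → ℕ → Bool := fun n => ξ ((n : ℤ) + 1)
def ls (ξ : ℤ → ℕ → Bool) : ℕ → ℕ → Bool := fun n => ng (ξ (-((n : ℤ) + 1)))

lemma right_chain {ξ : ℤ → ℕ → Bool} (hg : ∀ y, Good (ξ y)) {T k : ℕ} (hT : WW ξ T = 0)
    (hk : k ≤ Lf ξ T 1) (n : ℕ) : zz k (rs ξ) n ≤ Lf ξ T ((n : ℤ) + 1) := by
  induction n with
  | zero => simpa [zz_zero] using hk
  | succ n ih =>
    rw [zz_succ]
    have h1 : U (zz k (rs ξ) n) (rs ξ n) ≤ Rt ξ T ((n : ℤ) + 1) := U_le_of (hg _) ih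
    have h2 := flow ξ T ((n : ℤ) + 1)
    rw [hT, if_neg (by omega)] at h2
    push_cast
    have h3 : (Rt ξ T ((n : ℤ) + 1) : ℤ) = Lf ξ T ((n : ℤ) + 1 + 1) := by linarith
    have h4 : Rt ξ T ((n : ℤ) + 1) = Lf ξ T ((n : ℤ) + 1 + 1) := by exact_mod_cast h3
    omega

lemma left_chain {ξ : ℤ → ℕ → Bool} (hg : ∀ y, Good (ng (ξ y))) {T k N : ℕ}
    (hT : WW ξ T = -(N : ℤ)) (hk : Lf ξ T 0 ≤ k) (n : ℕ) (hn : n ≤ N) :
    Lf ξ T (-(n : ℤ)) ≤ zz k (ls ξ) n := by
  induction n with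
  | zero => simpa [zz_zero] using hk
  | succ n ih =>
    have ih := ih (by omega)
    rw [zz_succ]
    have h2 := flow ξ T (-((n : ℤ) + 1))
    rw [hT, if_neg (by omega), if_pos (by omega)] at h2
    have h5 : -((n : ℤ) + 1) + 1 = -(n : ℤ) := by ring
    rw [h5] at h2
    have h6 : Rt ξ T (-((n : ℤ) + 1)) < zz k (ls ξ) n := by omega
    have h7 : Fl (ng (ξ (-((n : ℤ) + 1)))) (CN ξ T (-((n : ℤ) + 1))) < zz k (ls ξ) n := by
      rw [Fl_ng]; exact h6
    have h8 := le_U_of (hg (-((n : ℤ) + 1))) h7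
    rw [count_ng] at h8
    push_cast
    have h9 : (-1 + -(n : ℤ)) = -((n : ℤ) + 1) := by ring
    have h10 : -((n : ℤ) + 1) = -((n : ℤ) + 1) := rfl
    exact h8

lemma left_pos {ξ : ℤ → ℕ → Bool} (hg : ∀ y, Good (ng (ξ y))) {T k N : ℕ}
    (hT : WW ξ T = -(N : ℤ)) (hk : Lf ξ T 0 ≤ k) (n : ℕ) (hn : n < N) : 1 ≤ zz k (ls ξ) n := by
  have h1 := left_chain hg hT hk n hn.le
  have h2 := flow ξ T (-(n : ℤ) - 1)
  rw [hT, if_neg (by omega), if_pos (by omega)] at h2
  have h5 : -(n : ℤ) - 1 + 1 = -(n : ℤ) := by ring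
  rw [h5] at h2
  omega

/-- visits give large counts -/
lemma CN_large {ξ : ℤ → ℕ → Bool} {y : ℤ} (hy : ∃ᶠ n in atTop, WW ξ n = y) (m : ℕ) :
    ∃ T, WW ξ T = y ∧ m ≤ CN ξ T y := by
  induction m with
  | zero =>
    obtain ⟨T, hT⟩ := hy.exists
    exact ⟨T, hT, Nat.zero_le _⟩
  | succ m ih =>
    obtain ⟨T, hT, hm⟩ := ih
    obtain ⟨T', h1, h2⟩ := frequently_atTop.1 hy (T + 1)
    refine ⟨T', h2, ?_⟩
    have h3 := CN_mono ξ y h1
    simp only at h3
    have h4 := CN_succ_self ξ T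
    rw [hT] at h4
    omega

lemma exists_time {ξ : ℤ → ℕ → Bool} {y : ℤ} {i T : ℕ} (h : i < CN ξ T y) :
    ∃ t, t < T ∧ WW ξ t = y ∧ CN ξ t y = i := by
  induction T with
  | zero =>
    have : CN ξ 0 y = 0 := by simp [CN, C_zero]
    omega
  | succ T ih =>
    by_cases h1 : i < CN ξ T y
    · obtain ⟨t, h2, h3, h4⟩ := ih h1
      exact ⟨t, by omega, h3, h4⟩
    · by_cases h2 : y = WW ξ T
      · refine ⟨T, by omega, h2.symm, ?_⟩
        have h3 := CN_succ_self ξ T
        rw [← h2] at h3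
        omega
      · rw [CN_succ_ne ξ T h2] at h
        exact absurd h h1

/-- from a site visited infinitely often every arrow is used -/
lemma io_step {ξ : ℤ → ℕ → Bool} {y : ℤ} (hy : ∃ᶠ n in atTop, WW ξ n = y) (s : Bool)
    (hs : ∀ c, ∃ i, c ≤ i ∧ ξ y i = s) :
    ∃ᶠ n in atTop, WW ξ n = y + if s = true then 1 else -1 := by
  rw [frequently_atTop]
  intro n0
  obtain ⟨i, hi1, hi2⟩ := hs (CN ξ n0 y)
  obtain ⟨T, hT, hm⟩ := CN_large hy (i + 1)
  obtain ⟨t, _, h2, h3⟩ := exists_time (show i < CN ξ T y by omega)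
  have h4 : n0 ≤ t := by
    by_contra hc
    push Not at hc
    have h5 := CN_mono ξ y (show t + 1 ≤ n0 by omega)
    simp only at h5
    have h6 := CN_succ_self ξ t
    rw [h2] at h6
    omega
  refine ⟨t + 1, by omega, ?_⟩
  rw [WW_succ, h2, h3, hi2]

lemma good_exists {b : ℕ → Bool} (hb : Good b) (c : ℕ) : ∃ i, c ≤ i ∧ b i = false := by
  by_contra hc
  push Not at hc
  have h1 : ∀ k, Fl b (c + k) = Fl b c := by
    intro k
    induction k with
    | zero => rfl
    | succ k ih =>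
      rw [← add_assoc, Fl_succ, ih, if_neg (hc _ (by omega)), add_zero]
  obtain ⟨n, hn⟩ := hb (Fl b c + 1)
  rcases le_total n c with h | h
  · have := Fl_mono b h
    omega
  · obtain ⟨k, rfl⟩ := Nat.exists_eq_add_of_le h
    rw [h1] at hn
    omega

/-- visiting `0` infinitely often kills all right chains -/
lemma right_die {ξ : ℤ → ℕ → Bool} (hg : ∀ y, Good (ξ y)) (hg' : ∀ y, Good (ng (ξ y)))
    (h0 : ∃ᶠ n in atTop, WW ξ n = 0) (k : ℕ) : ∃ n, zz k (rs ξ) n = 0 := by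
  obtain ⟨c, hc⟩ := hg' 0 k
  rw [Fl_ng] at hc
  obtain ⟨T, hT, hm⟩ := CN_large h0 c
  have h1 : k ≤ Rt ξ T 0 := hc.trans (Nat.count_monotone _ hm)
  have h2 := flow ξ T 0
  rw [hT, if_neg (by omega)] at h2
  have h3 : k ≤ Lf ξ T 1 := by
    have h4 : (0 : ℤ) + 1 = 1 := rfl
    rw [h4] at h2
    omega
  refine ⟨T, ?_⟩
  have h4 := right_chain hg hT h3 T
  have h5 := Rt_Lf ξ T ((T : ℤ) + 1)
  have h6 := CN_far ξ T ((T : ℤ) + 1) (by omega)
  omega

theorem det {ξ : ℤ → ℕ → Bool} (hg : ∀ y, Good (ξ y)) (hg' : ∀ y, Good (ng (ξ y)))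
    (hr : ¬ ∀ k, ∃ n, zz k (rs ξ) n = 0) (hl : ∀ k, ¬ ∀ n, 1 ≤ zz k (ls ξ) n) :
    Tendsto (fun n => WW ξ n) atTop atTop := by
  have hR : ∀ y, (∃ᶠ n in atTop, WW ξ n = y) → ∃ᶠ n in atTop, WW ξ n = y + 1 := by
    intro y hy
    have := io_step hy true fun c => by
      obtain ⟨i, h1, h2⟩ := good_exists (hg' y) c
      exact ⟨i, h1, by simpa [ng] using h2⟩
    simpa using this
  have hL : ∀ y, (∃ᶠ n in atTop, WW ξ n = y) → ∃ᶠ n in atTop, WW ξ n = y - 1 := by
    intro y hy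
    have := io_step hy false fun c => good_exists (hg y) c
    simpa [sub_eq_add_neg] using this
  have hR' : ∀ (k : ℕ) (y : ℤ), (∃ᶠ n in atTop, WW ξ n = y) → ∃ᶠ n in atTop, WW ξ n = y + k := by
    intro k
    induction k with
    | zero => intro y hy; simpa using hy
    | succ k ih =>
      intro y hy
      have := hR _ (ih y hy)
      push_cast
      rw [← add_assoc]
      exact this
  have hL' : ∀ (k : ℕ) (y : ℤ), (∃ᶠ n in atTop, WW ξ n = y) → ∃ᶠ n in atTop, WW ξ n = y - k := by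
    intro k
    induction k with
    | zero => intro y hy; simpa using hy
    | succ k ih =>
      intro y hy
      have := hL _ (ih y hy)
      push_cast
      rw [← sub_sub]
      exact this
  have h0 : ¬ ∃ᶠ n in atTop, WW ξ n = 0 := fun h => hr fun k => right_die hg hg' h k
  have hno : ∀ y, ∀ᶠ n in atTop, WW ξ n ≠ y := by
    intro y
    rw [← not_frequently]
    intro hy
    apply h0
    rcases le_total 0 y with h | h
    · have := hL' y.natAbs y hy
      have e : y - (y.natAbs : ℤ) = 0 := by omega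
      rwa [e] at this
    · have := hR' y.natAbs y hy
      have e : y + (y.natAbs : ℤ) = 0 := by omega
      rwa [e] at this
  have hfar : ∀ M : ℤ, ∀ᶠ n in atTop, ∀ y ∈ Finset.Icc (-M) M, WW ξ n ≠ y := by
    intro M
    rw [eventually_all_finset]
    intro y _
    exact hno y
  have hstep : ∀ n, WW ξ (n + 1) = WW ξ n + 1 ∨ WW ξ (n + 1) = WW ξ n - 1 := by
    intro n
    rw [WW_succ]
    split_ifs
    · left; rfl
    · right; rfl
  obtain ⟨n0, hn0⟩ := eventually_atTop.1 (hno 0)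
  rcases lt_or_ge (WW ξ n0) 0 with hneg | hpos
  · -- negative forever
    exfalso
    have hneg' : ∀ n, n0 ≤ n → WW ξ n < 0 := by
      intro n hn
      induction n, hn using Nat.le_induction with
      | base => exact hneg
      | succ n hn ih =>
        have h1 := hn0 (n + 1) (by omega)
        rcases hstep n with h2 | h2 <;> omega
    -- the number of visits to `0`
    have hK : ∀ T, Lf ξ T 0 ≤ CN ξ n0 0 := by
      intro T
      have h1 := Rt_Lf ξ T 0
      rcases le_total T n0 with h | h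
      · have := CN_mono ξ 0 h
        simp only at this
        omega
      · have h2 : CN ξ T 0 = CN ξ n0 0 := by
          induction T, h using Nat.le_induction with
          | base => rfl
          | succ T hT ih =>
            rw [CN_succ_ne ξ T (hn0 T hT).symm]
            exact ih (Rt_Lf ξ T 0)
        omega
    refine hl (CN ξ n0 0) fun n => ?_
    -- reach `-(n+1)`
    obtain ⟨m, hm1, hm2⟩ : ∃ m, n0 ≤ m ∧ WW ξ m < -((n : ℤ) + 1) := by
      obtain ⟨m, hm⟩ := eventually_atTop.1 (hfar ((n : ℤ) + 1))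
      refine ⟨max m n0, le_max_right _ _, ?_⟩
      have h1 := hm (max m n0) (le_max_left _ _)
      have h2 := hneg' (max m n0) (le_max_right _ _)
      by_contra hc
      push Not at hc
      exact h1 _ (Finset.mem_Icc.2 ⟨hc, by omega⟩) rfl
    classical
    have hex : ∃ T, WW ξ T ≤ -((n : ℤ) + 1) := ⟨m, hm2.le⟩
    have hspec := Nat.find_spec hex
    have hT : WW ξ (Nat.find hex) = -(((n + 1 : ℕ)) : ℤ) := by
      rcases hT0 : Nat.find hex with _ | t
      · rw [hT0, WW_zero] at hspec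
        omega
      · have h3 : ¬ WW ξ t ≤ -((n : ℤ) + 1) := Nat.find_min hex (by omega)
        rw [hT0] at hspec
        push_cast
        rcases hstep t with h2 | h2 <;> omega
    exact left_pos hg' hT (hK _) n (by omega)
  · -- positive forever
    have hpos' : ∀ n, n0 ≤ n → 0 < WW ξ n := by
      intro n hn
      induction n, hn using Nat.le_induction with
      | base => exact lt_of_le_of_ne hpos (hn0 n0 le_rfl).symm
      | succ n hn ih =>
        have h1 := hn0 (n + 1) (by omega)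
        rcases hstep n with h2 | h2 <;> omega
    rw [tendsto_atTop]
    intro M
    filter_upwards [hfar M, eventually_ge_atTop n0] with n h1 h2
    have h3 := hpos' n h2
    by_contra hc
    push Not at hc
    exact h1 _ (Finset.mem_Icc.2 ⟨by omega, hc.le⟩) rfl

end Pool.Agent.NH97.ERW
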